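import Pool.Agent.TH680.BSR.Adv

/-! The separation over the reals, for machines with real advice. -/

set_option autoImplicit false

namespace Pool.Agent.TH680.BSR

open MeasureTheory Pool.Agent.W900.IE Pool.Agent.W900.PS Pool.Agent.W900 Pool.Agent.TH680.SE
  Pool.Agent.H620R2.Gauge Pool.Agent.H591R3.PHG Pool.Agent.TH680.BSS

variable {k m : ℕ}

/-- the answer for the instance `v` is right; the run starts with the sequence `x₀ v` -/
def RtX (c : Fin k → ℝ) (S : Fin (m + 1) → Instr (Fin k) (m + 1)) (Q A : List Bool → Bool)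
    (T j : ℕ) (x₀ : List Bool → ℤ → ℝ) (v : List Bool) : Prop :=
  runR c (two Q A) S T 0 (x₀ v) = some false ↔
    ∀ w : List Bool, w.length = 2 * j + 1 → ¬ ∀ z ∈ grR j v w, A z = true

open Classical in
theorem prob_rightX (c : Fin k → ℝ) (S : Fin (m + 1) → Instr (Fin k) (m + 1))
    (Q : List Bool → Bool) {T j : ℕ} (hT : 2 * T ≤ 2 ^ (2 * j + 1)) (x₀ : List Bool → ℤ → ℝ) :
    (indep (fun _ => half)).real {A | ∀ v : List Bool, v.length = j → RtX c S Q A T j x₀ v} ≤
      (1 - 1 / 1024) ^ (2 ^ j / (T + 1)) := by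
  have hfin : ∀ v : List Bool, ∃ F : Finset (List Bool), ∀ A,
      qR c Q A S T 0 (x₀ v) ⊆ F := fun v => qR_fin c Q S T 0 _
  choose F hF using hfin
  have h := all_right (fun _ => half) (W := DT.strs (2 * j + 1)) (g := grR j)
    (t := fun _ => true)
    (Acc := fun v => {A | v.length = j ∧ runR c (two Q A) S T 0 (x₀ v) = some false})
    (qs := fun v A => if v.length = j then qR c Q A S T 0 (x₀ v) else ∅)
    (by
      intro v A A' hA
      by_cases hv : v.length = j
      · simp only [if_pos hv] at hA ⊢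
        obtain ⟨e1, e2⟩ := qR_stab c Q A A' S T 0 _ hA
        refine ⟨e1, ?_⟩
        rw [Set.mem_ofPred_eq, Set.mem_ofPred_eq, e2]
      · simp only [if_neg hv, true_and]
        rw [Set.mem_ofPred_eq, Set.mem_ofPred_eq]
        exact ⟨fun h => absurd h.1 hv, fun h => absurd h.1 hv⟩)
    (F := (DT.strs j).biUnion F)
    (by
      intro v A
      by_cases hv : v.length = j
      · simp only [if_pos hv]
        exact (hF v A).trans (Finset.subset_biUnion_of_mem F (DT.mem_strs.2 hv))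
      · simp only [if_neg hv]
        exact Finset.empty_subset _)
    (π := (1 / 2) ^ (2 * j + 2)) (by positivity)
    (by
      intro v w hw w' hw' hne
      exact grR_disj rfl ((DT.mem_strs.1 hw).trans (DT.mem_strs.1 hw').symm) fun h => hne h.2)
    (by
      intro v w _
      have h1 : ∀ z ∈ grR j v w, ber ((half : unitInterval) : ℝ) true = 1 / 2 := by
        intro z _
        simp [ber, half]
      rw [Finset.prod_congr rfl h1, Finset.prod_const, card_grR])
    (by
      rw [card_strs]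
      push_cast
      rw [show 2 * j + 2 = (2 * j + 1) + 1 from rfl, pow_succ (1 / 2 : ℝ), ← mul_assoc, ← mul_pow]
      norm_num)
    (T := T)
    (by
      intro v A
      by_cases hv : v.length = j
      · simp only [if_pos hv]
        exact qR_card _ _ _ _ _ _ _
      · simp only [if_neg hv]
        simp)
    (by rw [card_strs]; exact hT)
    (vs := (DT.strs j).toList) (Finset.nodup_toList _)
    (by
      intro v hv v' hv' hne
      rw [Finset.mem_toList, DT.mem_strs] at hv hv'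
      rw [Finset.disjoint_left]
      intro z hz hz'
      obtain ⟨w, hw, h1⟩ := Finset.mem_biUnion.1 hz
      obtain ⟨w', hw', h2⟩ := Finset.mem_biUnion.1 hz'
      exact Finset.disjoint_left.1 (grR_disj (j := j) (hv.trans hv'.symm)
        ((DT.mem_strs.1 hw).trans (DT.mem_strs.1 hw').symm) fun h => hne h.1) h1 h2)
  rw [Finset.length_toList, card_strs] at h
  refine le_trans (measureReal_mono ?_ (measure_ne_top _ _)) h
  intro A hA v hv
  rw [Finset.mem_toList, DT.mem_strs] at hv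
  have h1 := hA v hv
  unfold Right
  rw [Set.mem_ofPred_eq, Set.mem_ofPred_eq]
  unfold RtX at h1
  constructor
  · rintro ⟨_, h2⟩ w hw h3
    exact h1.1 h2 w (DT.mem_strs.1 hw) h3
  · intro h2
    exact ⟨hv, h1.2 fun w hw h3 => h2 w (DT.mem_strs.2 hw) h3⟩

/-- the sequence with the instance `v` and the advice -/
noncomputable def st (j K : ℕ) (d : Fin (k + K) → ℝ) (v : List Bool) : ℤ → ℝ :=
  place ((insR j v).map (bit ℝ) ++ List.ofFn (fun i => d (Fin.natAdd k i)))

/-- all answers are right, with the constants and the advice `d` -/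
def AllR (S : Fin (m + 1) → Instr (Fin k) (m + 1)) (Q A : List Bool → Bool) (T j K : ℕ)
    (d : Fin (k + K) → ℝ) : Prop :=
  ∀ v : List Bool, v.length = j → RtX (fun i => d (Fin.castAdd K i)) S Q A T j (st j K d) v

open Classical in
/-- for some constants and some advice all answers are right -/
theorem prob_existsX (S : Fin (m + 1) → Instr (Fin k) (m + 1)) (Q : List Bool → Bool) {T j : ℕ}
    (hT : 2 * T ≤ 2 ^ (2 * j + 1)) (K : ℕ) :
    (indep (fun _ => half)).real {A | ∃ d : Fin (k + K) → ℝ, AllR S Q A T j K d} ≤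
        (((4 * (2 ^ j * (8 ^ T * (K + 3))) * 2 ^ T + 2) ^ (k + K) : ℕ) : ℝ) *
          (1 - 1 / 1024) ^ (2 ^ j / (T + 1)) := by
  obtain ⟨Ds, hDs, hrep⟩ := exists_reps' S K T ((DT.strs j).image (insR j))
  have hcard : ((DT.strs j).image (insR j)).card ≤ 2 ^ j := by
    refine Finset.card_image_le.trans ?_
    rw [card_strs]
  have hsub : {A : Oracle | ∃ d : Fin (k + K) → ℝ, AllR S Q A T j K d} ⊆
      ⋃ d ∈ Ds, {A | AllR S Q A T j K d} := by
    rintro A ⟨d, hd⟩
    obtain ⟨d', hd', h1⟩ := hrep d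
    refine Set.mem_iUnion₂.2 ⟨d', hd', fun v hv => ?_⟩
    have h2 := h1 (two Q A) (insR j v) (Finset.mem_image_of_mem _ (DT.mem_strs.2 hv))
    have h3 := hd v hv
    unfold RtX st at h3 ⊢
    rw [← h2]
    exact h3
  refine (measureReal_mono hsub (measure_ne_top _ _)).trans ?_
  refine (measureReal_biUnion_finset_le _ _).trans ?_
  refine (Finset.sum_le_card_nsmul _ _ _ fun d _ =>
    prob_rightX (fun i => d (Fin.castAdd K i)) S Q hT (st j K d)).trans ?_
  rw [nsmul_eq_mul]
  refine mul_le_mul_of_nonneg_right ?_ (by norm_num)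
  refine Nat.cast_le.2 (hDs.trans (Nat.pow_le_pow_left ?_ _))
  have h1 := Nat.mul_le_mul_right (8 ^ T * (K + 3)) hcard
  have h2 := Nat.mul_le_mul_right (2 ^ T) (Nat.mul_le_mul_left 4 h1)
  omega

/-- the bound, for instances of size `8 i + 1`, time `2 ^ i`, and advice of length at most
`2 ^ i` -/
theorem boundX (k i K : ℕ) (hi : k + 16 ≤ i) (hK : K ≤ 2 ^ i) :
    (((4 * (2 ^ (4 * i) * (8 ^ (2 ^ i) * (K + 3))) * 2 ^ (2 ^ i) + 2) ^ (k + K) : ℕ) : ℝ) *
      (1 - 1 / 1024) ^ (2 ^ (4 * i) / (2 ^ i + 1)) ≤ (1 / 4) ^ i := by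
  have hi2 : i < 2 ^ i := Nat.lt_two_pow_self
  have h16 : 2 ^ 16 ≤ 2 ^ i := Nat.pow_le_pow_right (by norm_num) (by omega)
  set a := 2 ^ i with ha
  -- the number of the representatives
  have h1 : 4 * (2 ^ (4 * i) * (8 ^ a * (K + 3))) * 2 ^ a + 2 ≤ 2 ^ (5 * i + 4 * a + 5) := by
    have e1 : (8 : ℕ) ^ a = 2 ^ (3 * a) := by
      rw [pow_mul]
      norm_num
    have e0 : K + 3 ≤ 2 * 2 ^ i := by omega
    have e2 : 4 * (2 ^ (4 * i) * (2 ^ (3 * a) * (2 * 2 ^ i))) * 2 ^ a =
        8 * 2 ^ (5 * i + 4 * a) := by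
      rw [pow_add, show 4 * a = 3 * a + a by ring, pow_add, show 5 * i = 4 * i + i by ring,
        pow_add]
      ring
    have e3 : 1 ≤ 2 ^ (5 * i + 4 * a) := Nat.one_le_two_pow
    have e4 : 4 * (2 ^ (4 * i) * (2 ^ (3 * a) * (K + 3))) * 2 ^ a ≤
        4 * (2 ^ (4 * i) * (2 ^ (3 * a) * (2 * 2 ^ i))) * 2 ^ a :=
      Nat.mul_le_mul_right _ (Nat.mul_le_mul_left _ (Nat.mul_le_mul_left _
        (Nat.mul_le_mul_left _ e0)))
    rw [e1, pow_add (2 : ℕ) (5 * i + 4 * a) 5]
    omega
  have h2 : (4 * (2 ^ (4 * i) * (8 ^ a * (K + 3))) * 2 ^ a + 2) ^ (k + K) ≤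
      2 ^ (28 * (a * a)) := by
    refine (Nat.pow_le_pow_left h1 (k + K)).trans ?_
    rw [← pow_mul]
    refine Nat.pow_le_pow_right (by norm_num) ?_
    calc (5 * i + 4 * a + 5) * (k + K) ≤ (14 * a) * (2 * a) :=
          Nat.mul_le_mul (by omega) (by omega)
      _ = 28 * (a * a) := by ring
  -- the exponent
  have h3 : 1024 * (28 * (a * a) + 2 * i) ≤ 2 ^ (4 * i) / (a + 1) := by
    rw [Nat.le_div_iff_mul_le (by omega)]
    have e4 : 2 ^ (4 * i) = a * a * (a * a) := by
      rw [ha, ← pow_add, ← pow_add]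
      congr 1
      ring
    rw [e4]
    have e5 : 28 * (a * a) + 2 * i ≤ 30 * (a * a) := by
      have : i ≤ a * a := by nlinarith
      omega
    have e7 : a + 1 ≤ 2 * a := by omega
    calc 1024 * (28 * (a * a) + 2 * i) * (a + 1) ≤ 1024 * (30 * (a * a)) * (2 * a) :=
          Nat.mul_le_mul (Nat.mul_le_mul_left _ e5) e7
      _ = a * a * (61440 * a) := by ring
      _ ≤ a * a * (a * a) := Nat.mul_le_mul_left _ (Nat.mul_le_mul_right _ (by omega))
  have h4 : (1 - 1 / 1024 : ℝ) ^ (2 ^ (4 * i) / (a + 1)) ≤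
      (1 / 2) ^ (28 * (a * a) + 2 * i) := by
    refine (pow_le_pow_of_le_one (by norm_num) (by norm_num) h3).trans ?_
    rw [pow_mul]
    exact pow_le_pow_left₀ (by positivity) rho_le _
  have h5 : (((4 * (2 ^ (4 * i) * (8 ^ a * (K + 3))) * 2 ^ a + 2) ^ (k + K) : ℕ) : ℝ) ≤
      2 ^ (28 * (a * a)) := by
    exact_mod_cast h2
  calc (((4 * (2 ^ (4 * i) * (8 ^ a * (K + 3))) * 2 ^ a + 2) ^ (k + K) : ℕ) : ℝ) *
        (1 - 1 / 1024) ^ (2 ^ (4 * i) / (a + 1))
      ≤ 2 ^ (28 * (a * a)) * (1 / 2) ^ (28 * (a * a) + 2 * i) :=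
        mul_le_mul h5 h4 (by norm_num) (by positivity)
    _ = (1 / 4) ^ i := by
        rw [pow_add, ← mul_assoc, ← mul_pow, pow_mul (1 / 2 : ℝ) 2 i]
        norm_num

/-- **Almost surely, for every program: for all large `i`, all constants and all advice of length
at most `2 ^ i` some answer is wrong.** -/
theorem ae_codeX (S : Fin (m + 1) → Instr (Fin k) (m + 1)) (Q : List Bool → Bool) :
    ∀ᵐ A ∂(indep (fun _ => half)), ∀ᶠ i : ℕ in Filter.atTop,
      ¬ ∃ K : ℕ, K ≤ 2 ^ i ∧ ∃ d : Fin (k + K) → ℝ, AllR S Q A (2 ^ i) (4 * i) K d := by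
  have hs : ∑' i, (indep (fun _ => half)) (if k + 16 ≤ i then {A | ∃ K : ℕ, K ≤ 2 ^ i ∧
      ∃ d : Fin (k + K) → ℝ, AllR S Q A (2 ^ i) (4 * i) K d} else ∅) ≠ ⊤ := by
    have hsum : Summable (fun i : ℕ => 2 * (1 / 2 : ℝ) ^ i) :=
      (summable_geometric_of_lt_one (by norm_num) (by norm_num)).mul_left 2
    refine ne_top_of_le_ne_top hsum.tsum_ofReal_ne_top (ENNReal.tsum_le_tsum fun i => ?_)
    split_ifs with hi
    · rw [← ENNReal.ofReal_toReal (measure_ne_top (indep (fun _ => half)) _)]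
      apply ENNReal.ofReal_le_ofReal
      have hsub : {A : Oracle | ∃ K : ℕ, K ≤ 2 ^ i ∧
          ∃ d : Fin (k + K) → ℝ, AllR S Q A (2 ^ i) (4 * i) K d} ⊆
          ⋃ K ∈ Finset.range (2 ^ i + 1),
            {A | ∃ d : Fin (k + K) → ℝ, AllR S Q A (2 ^ i) (4 * i) K d} := by
        rintro A ⟨K, hK, h⟩
        exact Set.mem_iUnion₂.2 ⟨K, Finset.mem_range.2 (by omega), h⟩
      refine (measureReal_mono hsub (measure_ne_top _ _)).trans ?_
      refine (measureReal_biUnion_finset_le _ _).trans ?_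
      refine (Finset.sum_le_card_nsmul _ _ ((1 / 4 : ℝ) ^ i) fun K hK => ?_).trans ?_
      · rw [Finset.mem_range] at hK
        refine le_trans (prob_existsX S Q ?_ K) (boundX k i K hi (by omega))
        rw [← pow_succ']
        exact Nat.pow_le_pow_right (by norm_num) (by omega)
      · rw [nsmul_eq_mul, Finset.card_range]
        push_cast
        have h1 : (1 : ℝ) ≤ 2 ^ i := one_le_pow₀ (by norm_num)
        have h2 : ((2 : ℝ) ^ i + 1) * (1 / 4) ^ i ≤ (2 * 2 ^ i) * (1 / 4) ^ i :=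
          mul_le_mul_of_nonneg_right (by linarith) (by positivity)
        refine h2.trans (le_of_eq ?_)
        rw [mul_assoc, ← mul_pow]
        norm_num
    · simp
  filter_upwards [ae_eventually_notMem hs] with A hA
  filter_upwards [hA, Filter.eventually_ge_atTop (k + 16)] with i h1 h2
  rw [if_pos h2] at h1
  exact h1

/-- **The separation, for machines with real advice.** -/
theorem ae_advice (Q : List Bool → Bool) : ∀ᵐ A ∂(indep (fun _ => half)),
    ∀ M : Machine ℝ, ∀ᶠ i : ℕ in Filter.atTop, ∀ a : List ℝ, a.length ≤ 2 ^ i →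
      ∃ w : List Bool, w.length = 8 * i + 1 ∧
        ¬ ∃ b : Bool, answerR M Q A (2 ^ i) (w.map (bit ℝ) ++ a) = some b ∧
          (b = true ↔ w.map (bit ℝ) ∈ langR A) := by
  have h : ∀ᵐ A ∂(indep (fun _ => half)), ∀ (k m : ℕ)
      (S : Fin (m + 1) → Instr (Fin k) (m + 1)), ∀ᶠ i : ℕ in Filter.atTop,
      ¬ ∃ K : ℕ, K ≤ 2 ^ i ∧ ∃ d : Fin (k + K) → ℝ, AllR S Q A (2 ^ i) (4 * i) K d := by
    rw [ae_all_iff]
    intro k
    rw [ae_all_iff]
    intro m
    rw [ae_all_iff]
    intro S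
    exact ae_codeX S Q
  filter_upwards [h] with A hA
  intro M
  filter_upwards [hA _ _ (fun q => (M.prog q).sh q)] with i hi
  intro a ha
  by_contra hcon
  push Not at hcon
  apply hi
  refine ⟨a.length, ha, Fin.append (fun q => (M.prog q).cst) (fun j => a[j]), fun v hv => ?_⟩
  have hl : (insR (4 * i) v).length = 8 * i + 1 := by
    simp [insR, hv]
    omega
  obtain ⟨b, h1, h2⟩ := hcon _ hl
  unfold RtX st
  simp only [Fin.append_left, Fin.append_right]
  have h3 : List.ofFn (fun j : Fin a.length => a[j]) = a := List.ofFn_getElem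
  rw [h3, runR_sh]
  unfold answerR at h1
  rw [h1, Option.some.injEq]
  have h4 : b = false ↔ ¬ (b = true) := by cases b <;> simp
  rw [h4, h2, insR_mem A hv]
  push Not
  rfl

/-- The class `P/poly` over `ℝ`, relative to the oracles `Q` and `A`: polynomial time with an advice
vector of real numbers, of polynomial length, which depends only on the size of the input. -/
def InPRpoly (Q A : List Bool → Bool) (L : Set (List ℝ)) : Prop :=
  ∃ (M : Machine ℝ) (p : Polynomial ℕ) (a : ℕ → List ℝ), (∀ n, (a n).length ≤ p.eval n) ∧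
    ∀ x : List ℝ, ∃ b : Bool, answerR M Q A (p.eval x.length) (x ++ a x.length) = some b ∧
      (b = true ↔ x ∈ L)

end Pool.Agent.TH680.BSR
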