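import Pool.Agent.TH680.BSR.Ver

/-! The classes over the reals, and the problem. -/

set_option autoImplicit false

namespace Pool.Agent.TH680.BSR

open Pool.Agent.TH680.BSS

/-- The answer of a machine over `ℝ` (order tests) with real constants on the input `l`, if it halts
after traversing at most `t` nodes, relative to the oracles `Q` and `A`. -/
noncomputable def answerR (M : Machine ℝ) (Q A : List Bool → Bool) (t : ℕ) (l : List ℝ) :
    Option Bool := runR id (two Q A) M.prog t 0 (place l)

/-- Within `t` steps the machine `M` gives the right answer to the question whether `x ∈ L`. -/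
def RightOn (M : Machine ℝ) (Q A : List Bool → Bool) (t : ℕ) (L : Set (List ℝ)) (x : List ℝ) :
    Prop := ∃ b : Bool, answerR M Q A t x = some b ∧ (b = true ↔ x ∈ L)

/-- The class `P` over `ℝ`, relative to the oracles `Q` and `A`. -/
def InPR (Q A : List Bool → Bool) (L : Set (List ℝ)) : Prop :=
  ∃ (M : Machine ℝ) (p : Polynomial ℕ), ∀ x : List ℝ, RightOn M Q A (p.eval x.length) L x

/-- The class `NP` over `ℝ`, relative to the oracles `Q` and `A`. -/
def InNPR (Q A : List Bool → Bool) (L : Set (List ℝ)) : Prop :=
  ∃ (M : Machine ℝ) (q p : Polynomial ℕ),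
    (∀ z : List ℝ, ∃ b : Bool, answerR M Q A (p.eval z.length) z = some b) ∧
    ∀ x : List ℝ, x ∈ L ↔ ∃ y : List ℝ, y.length = q.eval x.length ∧
      answerR M Q A (p.eval (x ++ y).length) (x ++ y) = some true

open Classical in
theorem verR_answer (Q A : List Bool → Bool) (l : List ℝ) :
    answerR verR Q A (12 * l.length + 9) l = some (decide (Gd A l)) :=
  vr_run Q A l _ (ag_place l)

/-- the problem -/
def langR (A : List Bool → Bool) : Set (List ℝ) :=
  {x | ∃ y : List ℝ, y.length = x.length ∧ Gd A (x ++ y)}

theorem langR_inNP (Q A : List Bool → Bool) : InNPR Q A (langR A) := by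
  classical
  refine ⟨verR, Polynomial.X, 12 * Polynomial.X + 9, fun z => ⟨decide (Gd A z), ?_⟩,
    fun x => ?_⟩
  · have := verR_answer Q A z
    simpa using this
  · unfold langR
    rw [Set.mem_ofPred_eq, Polynomial.eval_X]
    refine exists_congr fun y => and_congr_right fun _ => ?_
    have h1 : (12 * Polynomial.X + 9 : Polynomial ℕ).eval (x ++ y).length =
        12 * (x ++ y).length + 9 := by simp
    rw [h1, verR_answer]
    simp

/-- the instances -/
def insR (j : ℕ) (v : List Bool) : List Bool := List.replicate j false ++ true :: v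

/-- the prefixes -/
def pf (j : ℕ) : Finset (List Bool) :=
  insert [] ((Finset.range (j + 1)).image (fun i => List.replicate i false ++ [true]) ∪
    (Finset.range j).image (fun i => true :: (List.replicate i false ++ [true])))

/-- the strings of a witness -/
def grR (j : ℕ) (v w : List Bool) : Finset (List Bool) := (pf j).image (fun u => u ++ (v ++ w))

theorem card_pf (j : ℕ) : (pf j).card = 2 * j + 2 := by
  unfold pf
  rw [Finset.card_insert_of_notMem, Finset.card_union_of_disjoint,
    Finset.card_image_of_injective, Finset.card_image_of_injective, Finset.card_range,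
    Finset.card_range]
  · ring
  · intro a b h
    have := congrArg List.length h
    simpa using this
  · intro a b h
    have := congrArg List.length h
    simpa using this
  · rw [Finset.disjoint_left]
    intro z hz hz'
    obtain ⟨a, _, rfl⟩ := Finset.mem_image.1 hz
    obtain ⟨b, _, h⟩ := Finset.mem_image.1 hz'
    rcases a with _ | a
    · have := congrArg List.length h
      simp at this
    · rw [List.replicate_succ] at h
      simp at h
  · intro h
    rcases Finset.mem_union.1 h with h | h
    · obtain ⟨a, _, h⟩ := Finset.mem_image.1 h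
      simp at h
    · obtain ⟨a, _, h⟩ := Finset.mem_image.1 h
      simp at h

theorem card_grR (j : ℕ) (v w : List Bool) : (grR j v w).card = 2 * j + 2 := by
  unfold grR
  rw [Finset.card_image_of_injective _ (fun a b h => List.append_cancel_right h), card_pf]

theorem mem_grR {j : ℕ} {v w z : List Bool} (h : z ∈ grR j v w) : ∃ u, z = u ++ (v ++ w) := by
  obtain ⟨u, _, rfl⟩ := Finset.mem_image.1 h
  exact ⟨u, rfl⟩

theorem grR_disj {j : ℕ} {v w v' w' : List Bool} (hv : v.length = v'.length)
    (hw : w.length = w'.length) (hne : ¬ (v = v' ∧ w = w')) :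
    Disjoint (grR j v w) (grR j v' w') := by
  rw [Finset.disjoint_left]
  intro z hz hz'
  obtain ⟨u, rfl⟩ := mem_grR hz
  obtain ⟨u', h⟩ := mem_grR hz'
  have h1 := (List.append_inj' h (by simp [hv, hw])).2
  exact hne (List.append_inj h1 hv)

theorem gd_iff (A : List Bool → Bool) (l : List ℝ) (j : ℕ) :
    Gd A (List.replicate j 0 ++ 1 :: l) ↔
      (∀ i ≤ j, boo A (List.replicate i (0 : ℝ) ++ 1 :: l)) ∧
      (∀ i < j, boo A (1 :: (List.replicate i (0 : ℝ) ++ 1 :: l))) ∧ boo A l := by
  induction j with
  | zero =>
    simp only [List.replicate_zero, List.nil_append, Gd, one_ne_zero, false_imp_iff, ne_eq,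
      not_false_eq_true, true_imp_iff, true_and, Nat.not_lt_zero, implies_true]
    refine and_congr_left' ⟨fun h i hi => ?_, fun h => ?_⟩
    · obtain rfl : i = 0 := by omega
      exact h
    · exact h 0 le_rfl
  | succ j ih =>
    rw [List.replicate_succ, List.cons_append, Gd, ih]
    simp only [true_imp_iff, ne_eq, not_true_eq_false, false_imp_iff, and_true]
    constructor
    · rintro ⟨h1, h4, h2, h5, h3⟩
      refine ⟨fun i hi => ?_, fun i hi => ?_, h3⟩
      · rcases Nat.lt_or_ge i (j + 1) with h6 | h6
        · exact h2 i (by omega)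
        · obtain rfl : i = j + 1 := by omega
          rw [List.replicate_succ, List.cons_append]
          exact h1
      · rcases Nat.lt_or_ge i j with h6 | h6
        · exact h5 i h6
        · obtain rfl : i = j := by omega
          exact h4
    · rintro ⟨h1, h2, h3⟩
      refine ⟨?_, h2 j (by omega), fun i hi => h1 i (by omega), fun i hi => h2 i (by omega), h3⟩
      have := h1 (j + 1) le_rfl
      rwa [List.replicate_succ, List.cons_append] at this

theorem insR_mem (A : List Bool → Bool) {j : ℕ} {v : List Bool} (hv : v.length = j) :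
    (insR j v).map (bit ℝ) ∈ langR A ↔
      ∃ w : List Bool, w.length = 2 * j + 1 ∧ ∀ z ∈ grR j v w, A z = true := by
  have h0 : ∀ y : List ℝ, (insR j v).map (bit ℝ) ++ y =
      List.replicate j 0 ++ 1 :: (v.map (bit ℝ) ++ y) := by
    intro y
    simp [insR, bit]
  have h1 : ∀ (i : ℕ) (w : List Bool), List.replicate i (0 : ℝ) ++
      1 :: (v.map (bit ℝ) ++ w.map (bit ℝ)) =
      ((List.replicate i false ++ [true]) ++ (v ++ w)).map (bit ℝ) := by
    intro i w
    simp [bit]
  have h2 : ∀ (i : ℕ) (w : List Bool), (1 : ℝ) :: (List.replicate i (0 : ℝ) ++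
      1 :: (v.map (bit ℝ) ++ w.map (bit ℝ))) =
      ((true :: (List.replicate i false ++ [true])) ++ (v ++ w)).map (bit ℝ) := by
    intro i w
    simp [bit]
  have hl : (insR j v).length = 2 * j + 1 := by
    simp [insR, hv]
    omega
  unfold langR
  rw [Set.mem_ofPred_eq]
  simp only [List.length_map, hl, h0, gd_iff]
  constructor
  · rintro ⟨y, hy, h3, h4, w₀, h5, h6⟩
    -- the witness is Boolean
    obtain ⟨w, rfl⟩ : ∃ w : List Bool, y = w.map (bit ℝ) := by
      refine ⟨w₀.drop j, ?_⟩
      have h7 := congrArg (List.drop j) h5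
      rw [List.drop_append_of_le_length (by simp [hv]), List.drop_of_length_le (by simp [hv]),
        List.nil_append, ← List.map_drop] at h7
      exact h7
    refine ⟨w, by simpa using hy, fun z hz => ?_⟩
    obtain ⟨u, hu, rfl⟩ := Finset.mem_image.1 hz
    rw [pf, Finset.mem_insert, Finset.mem_union] at hu
    rcases hu with rfl | hu | hu
    · have h7 : (v ++ w).map (bit ℝ) = w₀.map (bit ℝ) := by rw [List.map_append]; exact h5
      rw [List.nil_append, List.map_injective_iff.2 (fun a b hab => bit_inj hab) h7]
      exact h6
    · obtain ⟨i, hi, rfl⟩ := Finset.mem_image.1 hu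
      rw [Finset.mem_range] at hi
      have h7 := h3 i (by omega)
      rwa [h1, boo_map] at h7
    · obtain ⟨i, hi, rfl⟩ := Finset.mem_image.1 hu
      rw [Finset.mem_range] at hi
      have h7 := h4 i hi
      rwa [h2, boo_map] at h7
  · rintro ⟨w, hw, h3⟩
    refine ⟨w.map (bit ℝ), by simpa using hw, fun i hi => ?_, fun i hi => ?_, v ++ w, ?_, ?_⟩
    · rw [h1, boo_map]
      apply h3
      refine Finset.mem_image_of_mem _ ?_
      rw [pf, Finset.mem_insert, Finset.mem_union]
      exact Or.inr (Or.inl (Finset.mem_image_of_mem _ (Finset.mem_range.2 (by omega))))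
    · rw [h2, boo_map]
      apply h3
      refine Finset.mem_image_of_mem _ ?_
      rw [pf, Finset.mem_insert, Finset.mem_union]
      exact Or.inr (Or.inr (Finset.mem_image_of_mem _ (Finset.mem_range.2 hi)))
    · rw [List.map_append]
    · apply h3
      refine Finset.mem_image.2 ⟨[], ?_, by simp⟩
      rw [pf]
      exact Finset.mem_insert_self _ _

end Pool.Agent.TH680.BSR
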