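import Pool.Agent.TH680.BSR.Law

/-! Machines over the reals with real advice. -/

set_option autoImplicit false

namespace Pool.Agent.TH680.BSR

open MeasureTheory Pool.Agent.W900.IE Pool.Agent.W900.PS Pool.Agent.W900 Pool.Agent.TH680.SE
  Pool.Agent.H620R2.Gauge Pool.Agent.H591R3.PHG Pool.Agent.TH680.BSS MvPolynomial

variable {k m : ℕ}

/-- renaming of the constants -/
def ren (K : ℕ) : Instr (Fin k) m → Instr (Fin (k + K)) m
  | .op o i j l q' => .op o i j l q'
  | .const a i q' => .const (Fin.castAdd K a) i q'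
  | .copy i j q' => .copy i j q'
  | .shift s q' => .shift s q'
  | .test i yes no => .test i yes no
  | .ask b yes no => .ask b yes no
  | .halt b => .halt b

theorem runR_ren (K : ℕ) (d : Fin (k + K) → ℝ) (M : Fin m → Instr (Fin k) m)
    (O : Bool → List Bool → Bool) : ∀ (t : ℕ) (q : Fin m) (x : ℤ → ℝ),
    runR d O (fun q => ren K (M q)) t q x = runR (fun i => d (Fin.castAdd K i)) O M t q x := by
  classical
  intro t
  induction t with
  | zero => intro q x; rfl
  | succ t ih =>
    intro q x
    rw [runR, runR]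
    cases hq : M q with
    | op o i j l q' => simp only [ren]; exact ih _ _
    | const a i q' => simp only [ren]; exact ih _ _
    | copy i j q' => simp only [ren]; exact ih _ _
    | shift s q' => simp only [ren]; exact ih _ _
    | test i yes no => simp only [ren]; exact if_congr Iff.rfl (ih _ _) (ih _ _)
    | ask b yes no => simp only [ren]; exact if_congr Iff.rfl (ih _ _) (ih _ _)
    | halt b => simp only [ren]

/-- the symbolic sequence which contains the vector `l` -/
noncomputable def plS (l : List (Sy k)) (z : ℤ) : Sy k :=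
  if 1 ≤ z then (l.flatMap (fun a => [(C 1, 1), a])).getD (z - 1).toNat (C 0, 1) else (C 0, 1)

theorem vl_plS (c : Fin k → ℝ) (l : List (Sy k)) (z : ℤ) :
    vl c (plS l z) = place (l.map (vl c)) z := by
  have h0 : vl c (C 0, 1) = 0 := by simp [vl]
  have h1 : vl c (C 1, 1) = 1 := by simp [vl]
  unfold place plS
  split_ifs with h
  · have h2 : (l.map (vl c)).flatMap (fun a => [1, a]) =
        (l.flatMap (fun a => [(C 1, 1), a])).map (vl c) := by
      clear h
      induction l with
      | nil => rfl
      | cons a l ih =>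
        simp only [List.map_cons, List.flatMap_cons, List.map_append, List.map_nil, h1, ih]
    rw [h2, List.getD_eq_getElem?_getD, List.getD_eq_getElem?_getD, List.getElem?_map]
    cases (l.flatMap (fun a => [(C 1, 1), a]))[(z - 1).toNat]? with
    | none => exact h0
    | some a => rfl
  · exact h0

open Classical in
/-- the values at the beginning -/
noncomputable def V1 (k K : ℕ) : Finset (Sy (k + K)) :=
  insert (C 0, 1) (insert (C 1, 1)
    (Finset.univ.image (fun j : Fin K => ((X (Fin.natAdd k j), 1) : Sy (k + K)))))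

/-- the input `w` with the advice -/
noncomputable def lst (k K : ℕ) (w : List Bool) : List (Sy (k + K)) :=
  w.map (fun b => (C (bit ℝ b), 1)) ++ List.ofFn (fun j : Fin K => (X (Fin.natAdd k j), 1))

theorem v1_card (k K : ℕ) : (V1 k K).card ≤ K + 2 := by
  classical
  unfold V1
  have h1 := Finset.card_image_le (s := (Finset.univ : Finset (Fin K)))
    (f := fun j : Fin K => ((X (Fin.natAdd k j), 1) : Sy (k + K)))
  rw [Finset.card_univ, Fintype.card_fin] at h1
  refine (Finset.card_insert_le _ _).trans ?_
  have h2 := Finset.card_insert_le ((C 1, 1) : Sy (k + K))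
    (Finset.univ.image (fun j : Fin K => ((X (Fin.natAdd k j), 1) : Sy (k + K))))
  omega

theorem v1_den (k K : ℕ) (c : Fin (k + K) → ℝ) : ∀ s ∈ V1 k K, eval c s.2 ≠ 0 := by
  intro s hs
  unfold V1 at hs
  simp only [Finset.mem_insert, Finset.mem_image, Finset.mem_univ, true_and] at hs
  rcases hs with rfl | rfl | ⟨j, rfl⟩ <;> simp

theorem v1_dg (k K : ℕ) : Dg 1 (V1 k K) := by
  intro s hs
  unfold V1 at hs
  simp only [Finset.mem_insert, Finset.mem_image, Finset.mem_univ, true_and] at hs
  rcases hs with rfl | rfl | ⟨j, rfl⟩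
  · simp
  · simp
  · exact ⟨(totalDegree_X (R := ℝ) _).le, by simp⟩

theorem plS_mem (k K : ℕ) (w : List Bool) (z : ℤ) : plS (lst k K w) z ∈ V1 k K := by
  have h0 : ((C 0, 1) : Sy (k + K)) ∈ V1 k K := by simp [V1]
  have h1 : ((C 1, 1) : Sy (k + K)) ∈ V1 k K := by simp [V1]
  have hl : ∀ s ∈ lst k K w, s ∈ V1 k K := by
    intro s hs
    unfold lst at hs
    rw [List.mem_append, List.mem_map, List.mem_ofFn] at hs
    rcases hs with ⟨b, _, rfl⟩ | ⟨j, rfl⟩
    · cases b
      · simpa [bit] using h0
      · simpa [bit] using h1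
    · simp [V1]
  unfold plS
  split_ifs with h
  · rw [List.getD_eq_getElem?_getD]
    cases h2 : ((lst k K w).flatMap (fun a => [(C 1, 1), a]))[(z - 1).toNat]? with
    | none => exact h0
    | some a =>
      have h3 := List.mem_of_getElem? h2
      rw [List.mem_flatMap] at h3
      obtain ⟨y, hy, ha⟩ := h3
      simp only [List.mem_cons, List.not_mem_nil, or_false] at ha
      rcases ha with rfl | rfl
      · exact h1
      · exact hl _ hy
  · exact h0

theorem vl_lst (K : ℕ) (d : Fin (k + K) → ℝ) (w : List Bool) :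
    (lst k K w).map (vl d) = w.map (bit ℝ) ++ List.ofFn (fun j => d (Fin.natAdd k j)) := by
  unfold lst
  rw [List.map_append, List.map_map, List.map_ofFn]
  congr 1
  · exact List.map_congr_left fun b _ => by simp [vl]
  · congr 1
    funext j
    simp [vl]

open Classical in
/-- **Few representatives.** -/
theorem exists_reps' (S : Fin (m + 1) → Instr (Fin k) (m + 1)) (K T : ℕ)
    (Xs : Finset (List Bool)) : ∃ Ds : Finset (Fin (k + K) → ℝ),
      Ds.card ≤ (4 * (Xs.card * (8 ^ T * (K + 3))) * 2 ^ T + 2) ^ (k + K) ∧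
      ∀ d : Fin (k + K) → ℝ, ∃ d' ∈ Ds, ∀ (O : Bool → List Bool → Bool), ∀ w ∈ Xs,
        runR (fun i => d (Fin.castAdd K i)) O S T 0
          (place (w.map (bit ℝ) ++ List.ofFn (fun j => d (Fin.natAdd k j)))) =
        runR (fun i => d' (Fin.castAdd K i)) O S T 0
          (place (w.map (bit ℝ) ++ List.ofFn (fun j => d' (Fin.natAdd k j)))) := by
  set M : Fin (m + 1) → Instr (Fin (k + K)) (m + 1) := fun q => ren K (S q) with hM
  set F : Finset (MvPolynomial (Fin (k + K)) ℝ) :=
    Xs.biUnion (fun w => pol M T 0 (plS (lst k K w)) (V1 k K)) with hF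
  have hFc : F.card ≤ Xs.card * (8 ^ T * (K + 3)) := by
    refine Finset.card_biUnion_le.trans ?_
    refine (Finset.sum_le_card_nsmul _ _ (8 ^ T * (K + 3)) fun w _ => ?_).trans (by simp)
    refine (card_pol M T 0 _ (V1 k K)).trans (Nat.mul_le_mul_left _ ?_)
    have := v1_card k K
    omega
  have hW := Helper448.Warren.ncard_sign_patterns_le (fun f : F => f.1) (2 ^ T) (by
    rintro ⟨f, hf⟩
    rw [hF, Finset.mem_biUnion] at hf
    obtain ⟨w, _, hf⟩ := hf
    have := deg_pol M T 0 _ (V1 k K) 1 le_rfl (plS_mem k K w) (v1_dg k K) f hf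
    simpa using this)
  rw [Fintype.card_coe, Fintype.card_fin] at hW
  set R : Set (F → SignType) := Set.range (fun (x : Fin (k + K) → ℝ) (f : F) =>
    SignType.sign (eval x f.1)) with hR
  have hfin : R.Finite := Set.toFinite _
  have hex : ∀ s : R, ∃ x : Fin (k + K) → ℝ,
      (fun f : F => SignType.sign (eval x f.1)) = s.1 := fun s => s.2
  choose rep hrep using hex
  have : Fintype R := hfin.fintype
  refine ⟨Finset.univ.image rep, ?_, fun d => ?_⟩
  · refine Finset.card_image_le.trans ?_
    rw [Finset.card_univ, ← Nat.card_eq_fintype_card, Nat.card_coe_set_eq]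
    refine hW.trans (Nat.pow_le_pow_left ?_ _)
    have := Nat.mul_le_mul_right (2 ^ T) (Nat.mul_le_mul_left 4 hFc)
    omega
  · set s : R := ⟨fun f : F => SignType.sign (eval d f.1), ⟨d, rfl⟩⟩ with hs
    refine ⟨rep s, Finset.mem_image_of_mem _ (Finset.mem_univ _), fun O w hw => ?_⟩
    have h1 := hrep s
    have h0 := run_same M O T 0 (plS (lst k K w)) (V1 k K) (plS_mem k K w) (v1_den k K d)
      (v1_den k K (rep s)) fun f hf => by
        have hf' : f ∈ F := by
          rw [hF, Finset.mem_biUnion]
          exact ⟨w, hw, hf⟩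
        have h2 := congrFun h1 ⟨f, hf'⟩
        exact h2.symm
    simp only [vl_plS, vl_lst] at h0
    rw [hM, runR_ren, runR_ren] at h0
    exact h0

end Pool.Agent.TH680.BSR
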