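import Pool.Agent.TH680.BSR.Prod

/-! Many independent instances: the probability. -/

set_option autoImplicit false

namespace Pool.Agent.TH680.BSR

open Pool.Agent.NPC Pool.Agent.H620R2.Gauge Pool.Agent.H591R3.PHG MeasureTheory ProbabilityTheory
  Finset Pool.Agent.W900.IE Pool.Agent.W900.PS Pool.Agent.H622R2 Pool.Agent.W900
  Pool.Agent.TH680.SE

variable (p : List Bool → unitInterval)

section

variable {W : Finset (List Bool)} {g : List Bool → List Bool → Finset (List Bool)} {t : Oracle}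
  {Acc : List Bool → Set Oracle} {qs : List Bool → Oracle → Finset (List Bool)}

/-- exactly `j` instances are used, and the answers for them are right -/
def Hs (W : Finset (List Bool)) (g : List Bool → List Bool → Finset (List Bool)) (t : Oracle)
    (Acc : List Bool → Set Oracle) (qs : List Bool → Oracle → Finset (List Bool))
    (vs : List (List Bool)) (j : ℕ) : Set Oracle :=
  {A | ok W g t Acc qs vs A ∧ cnt W g qs vs A = j}

/-- the instance `v` is not touched -/
def Un (W : Finset (List Bool)) (g : List Bool → List Bool → Finset (List Bool))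
    (qs : List Bool → Oracle → Finset (List Bool)) (vs : List (List Bool)) (v : List Bool) :
    Set Oracle := {A | Disjoint (Zs W g qs vs A) (gp W g v)}

omit W g t Acc qs in
theorem depO_inter {D D' : Finset (List Bool)} {S S' : Set Oracle} (h : DepO D S)
    (h' : DepO D' S') : DepO (D ∪ D') (S ∩ S') := fun A A' hA hS =>
  ⟨h A A' (fun z hz => hA z (Finset.mem_union_left _ hz)) hS.1,
    h' A A' (fun z hz => hA z (Finset.mem_union_right _ hz)) hS.2⟩

variable (hst : ∀ v A A', (∀ z ∈ qs v A, A' z = A z) → qs v A' = qs v A ∧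
      (A ∈ Acc v ↔ A' ∈ Acc v)) {F : Finset (List Bool)} (hF : ∀ v A, qs v A ⊆ F)

include hst hF

theorem hs_dep (vs : List (List Bool)) (j : ℕ) :
    DepO (F ∪ vs.toFinset.biUnion (gp W g)) (Hs W g t Acc qs vs j) := by
  intro A A' h hA
  obtain ⟨_, e2, e3⟩ := stab (t := t) hst vs (A := A) (A' := A')
    (fun z hz => (h z (Finset.mem_union_left _ (zs_sub hF A vs hz))).symm)
    (fun v hv z hz => (h z (Finset.mem_union_right _ (Finset.mem_biUnion.2
      ⟨v, List.mem_toFinset.2 hv, hz⟩))).symm)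
  exact ⟨e3.2 hA.1, e2.trans hA.2⟩

theorem un_dep (vs : List (List Bool)) (j : ℕ) {v : List Bool}
    (hv : ∀ v' ∈ vs, Disjoint (gp W g v) (gp W g v')) :
    DepO ((F ∪ vs.toFinset.biUnion (gp W g)) \ gp W g v)
      (Hs W g t Acc qs vs j ∩ Un W g qs vs v) := by
  rintro A A' h ⟨hA, hd⟩
  have hd' : Disjoint (Zs W g qs vs A) (gp W g v) := hd
  obtain ⟨e1, e2, e3⟩ := stab (t := t) hst vs (A := A) (A' := A')
    (fun z hz => (h z (Finset.mem_sdiff.2 ⟨Finset.mem_union_left _ (zs_sub hF A vs hz),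
      Finset.disjoint_left.1 hd' hz⟩)).symm)
    (fun v' hv' z hz => (h z (Finset.mem_sdiff.2 ⟨Finset.mem_union_right _ (Finset.mem_biUnion.2
      ⟨v', List.mem_toFinset.2 hv', hz⟩), Finset.disjoint_right.1 (hv v' hv') hz⟩)).symm)
  refine ⟨⟨e3.2 hA.1, e2.trans hA.2⟩, ?_⟩
  show Disjoint (Zs W g qs vs A') (gp W g v)
  rw [e1]
  exact hd'

theorem right_dep (v : List Bool) : DepO (F ∪ gp W g v) (Right W g t Acc v) := by
  intro A A' h hA
  have h1 := hst v A A' fun z hz => (h z (Finset.mem_union_left _ (hF v A hz))).symm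
  exact (right_iff (fun z hz => (h z (Finset.mem_union_right _ hz)).symm) h1.2).2 hA

variable {π : ℝ} (hπ0 : 0 ≤ π) (hsep : ∀ v, ∀ w ∈ W, ∀ w' ∈ W, w ≠ w' → Disjoint (g v w) (g v w'))
  (hπ : ∀ v, ∀ w ∈ W, ∏ z ∈ g v w, ber (p z) (t z) = π) (hμ : W.card * π = 1 / 2)
  {T : ℕ} (hT : ∀ v A, (qs v A).card ≤ T) (hTW : 2 * T ≤ W.card)

include hπ0 hsep hπ hμ hT hTW

theorem right_le (vs : List (List Bool)) (j : ℕ) {v : List Bool}
    (hv : ∀ v' ∈ vs, Disjoint (gp W g v) (gp W g v')) :
    (indep p).real ((Hs W g t Acc qs vs j ∩ Un W g qs vs v) ∩ Right W g t Acc v) ≤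
      (1 - 1 / 1024) * (indep p).real (Hs W g t Acc qs vs j ∩ Un W g qs vs v) := by
  have h1 := un_dep (t := t) hst hF vs j hv
  have h2 := depO_inter h1 (right_dep (W := W) (g := g) (t := t) hst hF v)
  refine one_step p h1 h2 Set.inter_subset_left hπ0 (hsep v) ?_ (hπ v) hμ
    (fun A hA => hA.2) fun A hA => ⟨qs v A, ?_, fun A' hA' => ?_⟩
  · intro w hw
    rw [Finset.disjoint_left]
    intro z hz hz'
    exact (Finset.mem_sdiff.1 hz).2 (Finset.mem_biUnion.2 ⟨w, hw, hz'⟩)
  · have := hT v A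
    omega
  · exact (hst v A A' hA').2.1 hA

theorem phi (N : ℕ) : ∀ vs : List (List Bool), vs.length ≤ N → vs.Nodup →
    (∀ v ∈ vs, ∀ v' ∈ vs, v ≠ v' → Disjoint (gp W g v) (gp W g v')) →
    ∑ j ∈ Finset.range (N + 1), ((1 - 1 / 1024 : ℝ)⁻¹) ^ j *
      (indep p).real (Hs W g t Acc qs vs j) ≤ 1 := by
  classical
  intro vs
  induction vs with
  | nil =>
    intro _ _ _
    rw [Finset.sum_range_succ']
    have h1 : ∀ j ∈ Finset.range N, ((1 - 1 / 1024 : ℝ)⁻¹) ^ (j + 1) *
        (indep p).real (Hs W g t Acc qs [] (j + 1)) = 0 := by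
      intro j _
      have : Hs W g t Acc qs [] (j + 1) = ∅ := by
        ext A
        simp [Hs, cnt]
      rw [this]
      simp
    rw [Finset.sum_eq_zero h1, pow_zero, one_mul, zero_add]
    exact measureReal_le_one
  | cons v vs ih =>
    intro hN hn hdis
    have hn' := List.nodup_cons.1 hn
    have hv : ∀ v' ∈ vs, Disjoint (gp W g v) (gp W g v') := fun v' hv' =>
      hdis v List.mem_cons_self v' (List.mem_cons_of_mem _ hv') fun h => hn'.1 (h ▸ hv')
    rw [List.length_cons] at hN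
    have hI := ih (by omega) hn'.2 fun a ha b hb =>
      hdis a (List.mem_cons_of_mem _ ha) b (List.mem_cons_of_mem _ hb)
    refine le_trans ?_ hI
    set r : ℝ := (1 - 1 / 1024 : ℝ)⁻¹ with hr
    have hr0 : 0 ≤ r := by rw [hr]; norm_num
    have hrr : r * (1 - 1 / 1024) = 1 := by rw [hr]; norm_num
    set U := Un W g qs vs v with hU
    -- splitting
    have hmU : ∀ j, MeasurableSet (Hs W g t Acc qs vs j ∩ U) := fun j =>
      (un_dep (t := t) hst hF vs j hv).measurable
    have hmH : ∀ j, MeasurableSet (Hs W g t Acc qs vs j) := fun j =>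
      (hs_dep (t := t) hst hF vs j).measurable
    have hsplit : ∀ j, (indep p).real (Hs W g t Acc qs vs j) =
        (indep p).real (Hs W g t Acc qs vs j ∩ U) + (indep p).real (Hs W g t Acc qs vs j \ U) := by
      intro j
      have h1 : Hs W g t Acc qs vs j \ U = Hs W g t Acc qs vs j \ (Hs W g t Acc qs vs j ∩ U) := by
        rw [Set.sdiff_self_inter]
      rw [h1, measureReal_sdiff Set.inter_subset_left (hmU j)]
      ring
    have hzero : Hs W g t Acc qs (v :: vs) 0 ⊆ Hs W g t Acc qs vs 0 \ U := by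
      rintro A ⟨h1, h2⟩
      by_cases hd : Disjoint (Zs W g qs vs A) (gp W g v)
      · rw [cnt, if_pos hd] at h2
        omega
      · rw [cnt, if_neg hd] at h2
        exact ⟨⟨h1.1, h2⟩, hd⟩
    have hsucc : ∀ j, Hs W g t Acc qs (v :: vs) (j + 1) ⊆ (Hs W g t Acc qs vs (j + 1) \ U) ∪
        ((Hs W g t Acc qs vs j ∩ U) ∩ Right W g t Acc v) := by
      rintro j A ⟨h1, h2⟩
      by_cases hd : Disjoint (Zs W g qs vs A) (gp W g v)
      · rw [cnt, if_pos hd] at h2
        exact Or.inr ⟨⟨⟨h1.1, by omega⟩, hd⟩, h1.2 hd⟩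
      · rw [cnt, if_neg hd] at h2
        exact Or.inl ⟨⟨h1.1, h2⟩, hd⟩
    rw [Finset.sum_range_succ']
    have e1 : ∀ j ∈ Finset.range N, r ^ (j + 1) * (indep p).real (Hs W g t Acc qs (v :: vs) (j + 1))
        ≤ r ^ (j + 1) * (indep p).real (Hs W g t Acc qs vs (j + 1) \ U) +
          r ^ j * (indep p).real (Hs W g t Acc qs vs j ∩ U) := by
      intro j _
      have h1 : (indep p).real (Hs W g t Acc qs (v :: vs) (j + 1)) ≤
          (indep p).real (Hs W g t Acc qs vs (j + 1) \ U) +
            (1 - 1 / 1024) * (indep p).real (Hs W g t Acc qs vs j ∩ U) := by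
        refine (measureReal_mono (hsucc j)).trans ((measureReal_union_le _ _).trans ?_)
        have := right_le p hst hF hπ0 hsep hπ hμ hT hTW vs j hv
        linarith
      refine (mul_le_mul_of_nonneg_left h1 (pow_nonneg hr0 _)).trans (le_of_eq ?_)
      rw [mul_add, pow_succ]
      have : r ^ j * r * ((1 - 1 / 1024) * (indep p).real (Hs W g t Acc qs vs j ∩ U)) =
          r ^ j * (r * (1 - 1 / 1024)) * (indep p).real (Hs W g t Acc qs vs j ∩ U) := by ring
      rw [this, hrr, mul_one]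
    have e2 : r ^ 0 * (indep p).real (Hs W g t Acc qs (v :: vs) 0) ≤
        r ^ 0 * (indep p).real (Hs W g t Acc qs vs 0 \ U) :=
      mul_le_mul_of_nonneg_left (measureReal_mono hzero) (by positivity)
    refine (add_le_add (Finset.sum_le_sum e1) e2).trans ?_
    rw [Finset.sum_add_distrib]
    have e3 : ∑ j ∈ Finset.range N, r ^ j * (indep p).real (Hs W g t Acc qs vs j ∩ U) ≤
        ∑ j ∈ Finset.range (N + 1), r ^ j * (indep p).real (Hs W g t Acc qs vs j ∩ U) := by
      rw [Finset.sum_range_succ]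
      have : 0 ≤ r ^ N * (indep p).real (Hs W g t Acc qs vs N ∩ U) :=
        mul_nonneg (pow_nonneg hr0 _) measureReal_nonneg
      linarith
    have e4 : ∑ j ∈ Finset.range (N + 1), r ^ j * (indep p).real (Hs W g t Acc qs vs j) =
        ∑ j ∈ Finset.range (N + 1), r ^ j * (indep p).real (Hs W g t Acc qs vs j ∩ U) +
          (∑ j ∈ Finset.range N, r ^ (j + 1) * (indep p).real (Hs W g t Acc qs vs (j + 1) \ U) +
            r ^ 0 * (indep p).real (Hs W g t Acc qs vs 0 \ U)) := by
      rw [← Finset.sum_range_succ' (fun j => r ^ j * (indep p).real (Hs W g t Acc qs vs j \ U)),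
        ← Finset.sum_add_distrib]
      refine Finset.sum_congr rfl fun j _ => ?_
      rw [hsplit j]
      ring
    rw [e4]
    linarith

/-- **All answers are right with small probability.** -/
theorem all_right {vs : List (List Bool)} (hn : vs.Nodup)
    (hdis : ∀ v ∈ vs, ∀ v' ∈ vs, v ≠ v' → Disjoint (gp W g v) (gp W g v')) :
    (indep p).real {A | ∀ v ∈ vs, A ∈ Right W g t Acc v} ≤
      (1 - 1 / 1024) ^ (vs.length / (T + 1)) := by
  classical
  have hphi := phi p hst hF hπ0 hsep hπ hμ hT hTW vs.length vs le_rfl hn hdis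
  set r : ℝ := (1 - 1 / 1024 : ℝ)⁻¹ with hr
  have hr0 : 0 ≤ r := by rw [hr]; norm_num
  set j₀ := vs.length / (T + 1) with hj
  have hsub : {A : Oracle | ∀ v ∈ vs, A ∈ Right W g t Acc v} ⊆
      ⋃ j ∈ (Finset.range (vs.length + 1)).filter (fun j => j₀ ≤ j), Hs W g t Acc qs vs j := by
    intro A hA
    have h1 : ok W g t Acc qs vs A := ok_of_all hA
    have h2 := cnt_ge (W := W) (g := g) hT hn hdis A
    have h3 := cnt_le (W := W) (g := g) (qs := qs) A vs
    refine Set.mem_iUnion₂.2 ⟨cnt W g qs vs A, Finset.mem_filter.2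
      ⟨Finset.mem_range.2 (by omega), ?_⟩, h1, rfl⟩
    rw [hj]
    exact Nat.div_le_of_le_mul h2
  refine (measureReal_mono hsub (measure_ne_top _ _)).trans ?_
  refine (measureReal_biUnion_finset_le _ _).trans ?_
  have h4 : ∀ j ∈ (Finset.range (vs.length + 1)).filter (fun j => j₀ ≤ j),
      (indep p).real (Hs W g t Acc qs vs j) ≤
        (1 - 1 / 1024) ^ j₀ * (r ^ j * (indep p).real (Hs W g t Acc qs vs j)) := by
    intro j hj
    have h5 := (Finset.mem_filter.1 hj).2
    have h6 : ((1 : ℝ) - 1 / 1024) ^ j ≤ (1 - 1 / 1024) ^ j₀ :=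
      pow_le_pow_of_le_one (by norm_num) (by norm_num) h5
    have h7 : (1 - 1 / 1024 : ℝ) ^ j * r ^ j = 1 := by
      rw [← mul_pow, hr]
      norm_num
    have h8 : 0 ≤ r ^ j * (indep p).real (Hs W g t Acc qs vs j) :=
      mul_nonneg (pow_nonneg hr0 _) measureReal_nonneg
    calc (indep p).real (Hs W g t Acc qs vs j) =
          ((1 - 1 / 1024 : ℝ) ^ j * r ^ j) * (indep p).real (Hs W g t Acc qs vs j) := by
            rw [h7, one_mul]
      _ = (1 - 1 / 1024) ^ j * (r ^ j * (indep p).real (Hs W g t Acc qs vs j)) := by ring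
      _ ≤ _ := mul_le_mul_of_nonneg_right h6 h8
  refine (Finset.sum_le_sum h4).trans ?_
  rw [← Finset.mul_sum]
  have h9 : ∑ j ∈ (Finset.range (vs.length + 1)).filter (fun j => j₀ ≤ j),
      r ^ j * (indep p).real (Hs W g t Acc qs vs j) ≤ 1 := by
    refine le_trans (Finset.sum_le_sum_of_subset_of_nonneg (Finset.filter_subset _ _)
      fun j _ _ => mul_nonneg (pow_nonneg hr0 _) measureReal_nonneg) hphi
  calc (1 - 1 / 1024 : ℝ) ^ j₀ * ∑ j ∈ (Finset.range (vs.length + 1)).filter (fun j => j₀ ≤ j),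
        r ^ j * (indep p).real (Hs W g t Acc qs vs j) ≤ (1 - 1 / 1024) ^ j₀ * 1 :=
        mul_le_mul_of_nonneg_left h9 (by positivity)
    _ = _ := mul_one _

end

end Pool.Agent.TH680.BSR
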