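import Pool.Agent.TH680.BSR.Sym

/-! Few representatives for the constants. -/

set_option autoImplicit false

namespace Pool.Agent.TH680.BSR

open Pool.Agent.TH680.BSS MvPolynomial

variable {k : ℕ}

open Classical in
theorem card_pol {m : ℕ} (M : Fin m → Instr (Fin k) m) : ∀ (t : ℕ) (q : Fin m) (σ : ℤ → Sy k)
    (V : Finset (Sy k)), (pol M t q σ V).card ≤ 8 ^ t * (V.card + 1) := by
  intro t
  induction t with
  | zero => intro q σ V; simp [pol]
  | succ t ih =>
    intro q σ V
    have h8 : 1 ≤ 8 ^ t := Nat.one_le_pow _ _ (by norm_num)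
    have hp : 8 ^ (t + 1) * (V.card + 1) = 8 * (8 ^ t * (V.card + 1)) := by ring
    have hb : V.card + 1 ≤ 8 ^ t * (V.card + 1) := Nat.le_mul_of_pos_left _ h8
    have hi : ∀ s : Sy k, 8 ^ t * ((insert s V).card + 1) ≤ 2 * (8 ^ t * (V.card + 1)) := by
      intro s
      have := Finset.card_insert_le s V
      calc 8 ^ t * ((insert s V).card + 1) ≤ 8 ^ t * (2 * (V.card + 1)) :=
            Nat.mul_le_mul_left _ (by omega)
        _ = 2 * (8 ^ t * (V.card + 1)) := by ring
    rw [hp, pol]
    cases M q with
    | op o i j l q' =>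
      simp only
      have e1 := ih q' (Function.update σ i (sop0 o (σ j))) (insert (sop0 o (σ j)) V)
      have e2 := ih q' (Function.update σ i (sop o (σ j) (σ l))) (insert (sop o (σ j) (σ l)) V)
      have e3 := hi (sop0 o (σ j))
      have e4 := hi (sop o (σ j) (σ l))
      have e5 := Finset.card_insert_le (σ l).1
        (pol M t q' (Function.update σ i (sop0 o (σ j))) (insert (sop0 o (σ j)) V) ∪
          pol M t q' (Function.update σ i (sop o (σ j) (σ l))) (insert (sop o (σ j) (σ l)) V))
      have e6 := Finset.card_union_le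
        (pol M t q' (Function.update σ i (sop0 o (σ j))) (insert (sop0 o (σ j)) V))
        (pol M t q' (Function.update σ i (sop o (σ j) (σ l))) (insert (sop o (σ j) (σ l)) V))
      omega
    | const a i q' =>
      simp only
      have e1 := ih q' (Function.update σ i (X a, 1)) (insert (X a, 1) V)
      have e3 := hi (X a, 1)
      omega
    | copy i j q' =>
      simp only
      have e1 := ih q' (Function.update σ i (σ j)) V
      omega
    | shift s q' =>
      simp only
      have e1 := ih q' (fun z => σ (z + s)) V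
      omega
    | test i yes no =>
      simp only
      have e1 := ih yes σ V
      have e2 := ih no σ V
      have e5 := Finset.card_insert_le ((σ i).1 * (σ i).2) (pol M t yes σ V ∪ pol M t no σ V)
      have e6 := Finset.card_union_le (pol M t yes σ V) (pol M t no σ V)
      omega
    | ask b yes no =>
      simp only
      have e1 := ih yes σ V
      have e2 := ih no σ V
      have e5 := Finset.card_union_le (V.image (fun s => s.1) ∪ V.image (fun s => s.1 - s.2))
        (pol M t yes σ V ∪ pol M t no σ V)
      have e6 := Finset.card_union_le (pol M t yes σ V) (pol M t no σ V)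
      have e7 := Finset.card_union_le (V.image (fun s : Sy k => s.1))
        (V.image (fun s : Sy k => s.1 - s.2))
      have e8 : (V.image (fun s : Sy k => s.1)).card ≤ V.card := Finset.card_image_le
      have e9 : (V.image (fun s : Sy k => s.1 - s.2)).card ≤ V.card := Finset.card_image_le
      omega
    | halt b => simp

/-- the degrees are at most `D` -/
def Dg (D : ℕ) (V : Finset (Sy k)) : Prop := ∀ s ∈ V, s.1.totalDegree ≤ D ∧ s.2.totalDegree ≤ D

theorem dg_sop {D : ℕ} (o : Op) {s s' : Sy k} (h : s.1.totalDegree ≤ D ∧ s.2.totalDegree ≤ D)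
    (h' : s'.1.totalDegree ≤ D ∧ s'.2.totalDegree ≤ D) :
    (sop o s s').1.totalDegree ≤ 2 * D ∧ (sop o s s').2.totalDegree ≤ 2 * D := by
  have hm : ∀ a b : MvPolynomial (Fin k) ℝ, a.totalDegree ≤ D → b.totalDegree ≤ D →
      (a * b).totalDegree ≤ 2 * D := fun a b ha hb =>
    (totalDegree_mul a b).trans (by omega)
  cases o <;> simp only [sop]
  · exact ⟨(totalDegree_add _ _).trans (max_le (hm _ _ h.1 h'.2) (hm _ _ h'.1 h.2)),
      hm _ _ h.2 h'.2⟩
  · exact ⟨(totalDegree_sub _ _).trans (max_le (hm _ _ h.1 h'.2) (hm _ _ h'.1 h.2)),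
      hm _ _ h.2 h'.2⟩
  · exact ⟨hm _ _ h.1 h'.1, hm _ _ h.2 h'.2⟩
  · exact ⟨hm _ _ h.1 h'.2, hm _ _ h.2 h'.1⟩

theorem dg_sop0 {D : ℕ} (o : Op) {s : Sy k} (h : s.1.totalDegree ≤ D ∧ s.2.totalDegree ≤ D) :
    (sop0 o s).1.totalDegree ≤ 2 * D ∧ (sop0 o s).2.totalDegree ≤ 2 * D := by
  cases o <;> simp only [sop0]
  · omega
  · omega
  · simp
  · simp

open Classical in
theorem deg_pol {m : ℕ} (M : Fin m → Instr (Fin k) m) : ∀ (t : ℕ) (q : Fin m) (σ : ℤ → Sy k)
    (V : Finset (Sy k)) (D : ℕ), 1 ≤ D → (∀ z, σ z ∈ V) → Dg D V →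
      ∀ f ∈ pol M t q σ V, f.totalDegree ≤ 2 ^ t * D := by
  intro t
  induction t with
  | zero => intro q σ V D _ _ _ f hf; simp [pol] at hf
  | succ t ih =>
    intro q σ V D hD hσ hV f hf
    have hp : 2 ^ (t + 1) * D = 2 ^ t * (2 * D) := by ring
    have h2 : 1 ≤ 2 ^ t := Nat.one_le_two_pow
    have hb : 2 * D ≤ 2 ^ t * (2 * D) := Nat.le_mul_of_pos_left _ h2
    have hmono : Dg (2 * D) V := fun s hs => ⟨(hV s hs).1.trans (by omega),
      (hV s hs).2.trans (by omega)⟩
    have hins : ∀ s : Sy k, s.1.totalDegree ≤ 2 * D ∧ s.2.totalDegree ≤ 2 * D →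
        Dg (2 * D) (insert s V) := by
      intro s hs s' hs'
      rcases Finset.mem_insert.1 hs' with rfl | h
      · exact hs
      · exact hmono s' h
    have hm : ∀ a b : MvPolynomial (Fin k) ℝ, a.totalDegree ≤ D → b.totalDegree ≤ D →
        (a * b).totalDegree ≤ 2 * D := fun a b ha hb =>
      (totalDegree_mul a b).trans (by omega)
    rw [hp]
    rw [pol] at hf
    cases hq : M q with
    | op o i j l q' =>
      rw [hq] at hf
      simp only at hf
      rcases Finset.mem_insert.1 hf with rfl | hf
      · exact ((hV _ (hσ l)).1.trans (by omega)).trans hb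
      · rcases Finset.mem_union.1 hf with hf | hf
        · exact ih q' _ _ _ (by omega) (mem_update hσ i _) (hins _ (dg_sop0 o (hV _ (hσ j)))) f hf
        · exact ih q' _ _ _ (by omega) (mem_update hσ i _)
            (hins _ (dg_sop o (hV _ (hσ j)) (hV _ (hσ l)))) f hf
    | const a i q' =>
      rw [hq] at hf
      simp only at hf
      refine ih q' _ _ _ (by omega) (mem_update hσ i _) (hins _ ⟨?_, ?_⟩) f hf
      · exact (totalDegree_X (R := ℝ) a).le.trans (by omega)
      · simp
    | copy i j q' =>
      rw [hq] at hf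
      simp only at hf
      refine ih q' _ _ _ (by omega) (fun z => ?_) hmono f hf
      by_cases hz : z = i
      · subst hz
        rw [Function.update_self]
        exact hσ j
      · rw [Function.update_of_ne hz]
        exact hσ z
    | shift s q' =>
      rw [hq] at hf
      simp only at hf
      exact ih q' _ _ _ (by omega) (fun z => hσ _) hmono f hf
    | test i yes no =>
      rw [hq] at hf
      simp only at hf
      rcases Finset.mem_insert.1 hf with rfl | hf
      · exact (hm _ _ (hV _ (hσ i)).1 (hV _ (hσ i)).2).trans hb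
      · rcases Finset.mem_union.1 hf with hf | hf
        · exact ih yes _ _ _ (by omega) hσ hmono f hf
        · exact ih no _ _ _ (by omega) hσ hmono f hf
    | ask b yes no =>
      rw [hq] at hf
      simp only at hf
      rcases Finset.mem_union.1 hf with hf | hf
      · rcases Finset.mem_union.1 hf with hf | hf
        · obtain ⟨s, hs, rfl⟩ := Finset.mem_image.1 hf
          exact ((hV s hs).1.trans (by omega)).trans hb
        · obtain ⟨s, hs, rfl⟩ := Finset.mem_image.1 hf
          exact ((totalDegree_sub _ _).trans (max_le (hV s hs).1 (hV s hs).2)).trans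
            ((by omega : D ≤ 2 * D).trans hb)
      · rcases Finset.mem_union.1 hf with hf | hf
        · exact ih yes _ _ _ (by omega) hσ hmono f hf
        · exact ih no _ _ _ (by omega) hσ hmono f hf
    | halt b =>
      rw [hq] at hf
      simp at hf

/-- the entries of a Boolean input -/
theorem place_bit (w : List Bool) (z : ℤ) : place (w.map (bit ℝ)) z = 0 ∨
    place (w.map (bit ℝ)) z = 1 := by
  unfold place
  split_ifs with h
  · rw [List.getD_eq_getElem?_getD]
    cases h1 : ((w.map (bit ℝ)).flatMap (fun a => [1, a]))[(z - 1).toNat]? with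
    | none => left; rfl
    | some a =>
      have h2 := List.mem_of_getElem? h1
      rw [List.mem_flatMap] at h2
      obtain ⟨y, hy, ha⟩ := h2
      rw [List.mem_map] at hy
      obtain ⟨b, _, rfl⟩ := hy
      simp only [List.mem_cons, List.not_mem_nil, or_false] at ha
      rcases ha with rfl | rfl
      · right; rfl
      · cases b
        · left; simp [bit]
        · right; simp [bit]
  · left; rfl

/-- the symbolic values at the beginning -/
noncomputable def ini (k : ℕ) (w : List Bool) (z : ℤ) : Sy k :=
  (C (place (w.map (bit ℝ)) z), 1)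

open Classical in
/-- `0` and `1` -/
noncomputable def V0 (k : ℕ) : Finset (Sy k) := {(C 0, 1), (C 1, 1)}

theorem ini_mem (w : List Bool) (z : ℤ) : ini k w z ∈ V0 k := by
  unfold ini V0
  rcases place_bit w z with h | h <;> simp [h]

theorem vl_ini (c : Fin k → ℝ) (w : List Bool) :
    (fun z => vl c (ini k w z)) = place (w.map (bit ℝ)) := by
  funext z
  simp [vl, ini]

theorem v0_den (c : Fin k → ℝ) : ∀ s ∈ V0 k, eval c s.2 ≠ 0 := by
  intro s hs
  unfold V0 at hs
  simp only [Finset.mem_insert, Finset.mem_singleton] at hs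
  rcases hs with rfl | rfl <;> simp

theorem v0_dg : Dg 1 (V0 k) := by
  intro s hs
  unfold V0 at hs
  simp only [Finset.mem_insert, Finset.mem_singleton] at hs
  rcases hs with rfl | rfl <;> simp

theorem v0_card : (V0 k).card ≤ 2 := by
  classical
  unfold V0
  exact Finset.card_le_two

open Classical in
/-- **Few representatives.** -/
theorem exists_reps {m : ℕ} (M : Fin (m + 1) → Instr (Fin k) (m + 1)) (T : ℕ)
    (Xs : Finset (List Bool)) : ∃ Cs : Finset (Fin k → ℝ),
      Cs.card ≤ (4 * (Xs.card * (8 ^ T * 3)) * 2 ^ T + 2) ^ k ∧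
      ∀ c : Fin k → ℝ, ∃ c' ∈ Cs, ∀ (O : Bool → List Bool → Bool), ∀ w ∈ Xs,
        runR c O M T 0 (place (w.map (bit ℝ))) = runR c' O M T 0 (place (w.map (bit ℝ))) := by
  set F : Finset (MvPolynomial (Fin k) ℝ) := Xs.biUnion (fun w => pol M T 0 (ini k w) (V0 k))
    with hF
  have hFc : F.card ≤ Xs.card * (8 ^ T * 3) := by
    refine Finset.card_biUnion_le.trans ?_
    refine (Finset.sum_le_card_nsmul _ _ (8 ^ T * 3) fun w _ => ?_).trans (by simp)
    refine (card_pol M T 0 (ini k w) (V0 k)).trans (Nat.mul_le_mul_left _ ?_)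
    have := v0_card (k := k)
    omega
  have hW := Helper448.Warren.ncard_sign_patterns_le (fun f : F => f.1) (2 ^ T) (by
    rintro ⟨f, hf⟩
    rw [hF, Finset.mem_biUnion] at hf
    obtain ⟨w, _, hf⟩ := hf
    have := deg_pol M T 0 (ini k w) (V0 k) 1 le_rfl (ini_mem w) v0_dg f hf
    simpa using this)
  rw [Fintype.card_coe, Fintype.card_fin] at hW
  set R : Set (F → SignType) := Set.range (fun (x : Fin k → ℝ) (f : F) =>
    SignType.sign (eval x f.1)) with hR
  have hfin : R.Finite := Set.toFinite _
  have hex : ∀ s : R, ∃ x : Fin k → ℝ, (fun f : F => SignType.sign (eval x f.1)) = s.1 :=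
    fun s => s.2
  choose rep hrep using hex
  have : Fintype R := hfin.fintype
  refine ⟨Finset.univ.image rep, ?_, fun c => ?_⟩
  · refine Finset.card_image_le.trans ?_
    rw [Finset.card_univ, ← Nat.card_eq_fintype_card, Nat.card_coe_set_eq]
    refine hW.trans (Nat.pow_le_pow_left ?_ _)
    have := Nat.mul_le_mul_right (2 ^ T) (Nat.mul_le_mul_left 4 hFc)
    omega
  · set s : R := ⟨fun f : F => SignType.sign (eval c f.1), ⟨c, rfl⟩⟩ with hs
    refine ⟨rep s, Finset.mem_image_of_mem _ (Finset.mem_univ _), fun O w hw => ?_⟩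
    have h1 := hrep s
    have h0 := run_same M O T 0 (ini k w) (V0 k) (ini_mem w) (v0_den c) (v0_den (rep s))
      fun f hf => by
        have hf' : f ∈ F := by
          rw [hF, Finset.mem_biUnion]
          exact ⟨w, hw, hf⟩
        have h2 := congrFun h1 ⟨f, hf'⟩
        exact h2.symm
    rw [vl_ini, vl_ini] at h0
    exact h0

end Pool.Agent.TH680.BSR
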