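import Pool.Agent.TH680.BSR.Cls
import Pool.Agent.TH680.BSR.Reps
import Pool.Agent.TH680.BSR.Phi
import Pool.Agent.TH680.BSS.Law

/-! The separation over the reals. -/

set_option autoImplicit false

namespace Pool.Agent.TH680.BSR

open MeasureTheory Pool.Agent.W900.IE Pool.Agent.W900.PS Pool.Agent.W900 Pool.Agent.TH680.SE
  Pool.Agent.H620R2.Gauge Pool.Agent.H591R3.PHG Pool.Agent.TH680.BSS

variable {k m : ℕ}

/-- the run for the instance `v` -/
noncomputable def rn (c : Fin k → ℝ) (S : Fin (m + 1) → Instr (Fin k) (m + 1))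
    (Q A : List Bool → Bool) (T j : ℕ) (v : List Bool) : Option Bool :=
  runR c (two Q A) S T 0 (place ((insR j v).map (bit ℝ)))

/-- the answer for the instance `v` is right -/
def Rt (c : Fin k → ℝ) (S : Fin (m + 1) → Instr (Fin k) (m + 1)) (Q A : List Bool → Bool)
    (T j : ℕ) (v : List Bool) : Prop :=
  rn c S Q A T j v = some false ↔
    ∀ w : List Bool, w.length = 2 * j + 1 → ¬ ∀ z ∈ grR j v w, A z = true

open Classical in
theorem prob_right (c : Fin k → ℝ) (S : Fin (m + 1) → Instr (Fin k) (m + 1))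
    (Q : List Bool → Bool) {T j : ℕ} (hT : 2 * T ≤ 2 ^ (2 * j + 1)) :
    (indep (fun _ => half)).real {A | ∀ v : List Bool, v.length = j → Rt c S Q A T j v} ≤
      (1 - 1 / 1024) ^ (2 ^ j / (T + 1)) := by
  have hfin : ∀ v : List Bool, ∃ F : Finset (List Bool), ∀ A,
      qR c Q A S T 0 (place ((insR j v).map (bit ℝ))) ⊆ F := fun v => qR_fin c Q S T 0 _
  choose F hF using hfin
  have h := all_right (fun _ => half) (W := DT.strs (2 * j + 1)) (g := grR j)
    (t := fun _ => true)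
    (Acc := fun v => {A | v.length = j ∧ rn c S Q A T j v = some false})
    (qs := fun v A => if v.length = j then qR c Q A S T 0 (place ((insR j v).map (bit ℝ))) else ∅)
    (by
      intro v A A' hA
      by_cases hv : v.length = j
      · simp only [if_pos hv] at hA ⊢
        obtain ⟨e1, e2⟩ := qR_stab c Q A A' S T 0 _ hA
        refine ⟨e1, ?_⟩
        rw [Set.mem_ofPred_eq, Set.mem_ofPred_eq]
        unfold rn
        rw [e2]
      · simp only [if_neg hv, true_and]
        rw [Set.mem_ofPred_eq, Set.mem_ofPred_eq]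
        exact ⟨fun h => absurd h.1 hv, fun h => absurd h.1 hv⟩)
    (F := (DT.strs j).biUnion F)
    (by
      intro v A
      by_cases hv : v.length = j
      · simp only [if_pos hv]
        exact (hF v A).trans (Finset.subset_biUnion_of_mem F (DT.mem_strs.2 hv))
      · simp only [if_neg hv]
        exact Finset.empty_subset _)
    (π := (1 / 2) ^ (2 * j + 2)) (by positivity)
    (by
      intro v w hw w' hw' hne
      exact grR_disj rfl ((DT.mem_strs.1 hw).trans (DT.mem_strs.1 hw').symm) fun h => hne h.2)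
    (by
      intro v w _
      have h1 : ∀ z ∈ grR j v w, ber ((half : unitInterval) : ℝ) true = 1 / 2 := by
        intro z _
        simp [ber, half]
      rw [Finset.prod_congr rfl h1, Finset.prod_const, card_grR])
    (by
      rw [card_strs]
      push_cast
      rw [show 2 * j + 2 = (2 * j + 1) + 1 from rfl, pow_succ (1 / 2 : ℝ), ← mul_assoc, ← mul_pow]
      norm_num)
    (T := T)
    (by
      intro v A
      by_cases hv : v.length = j
      · simp only [if_pos hv]
        exact qR_card _ _ _ _ _ _ _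
      · simp only [if_neg hv]
        simp)
    (by rw [card_strs]; exact hT)
    (vs := (DT.strs j).toList) (Finset.nodup_toList _)
    (by
      intro v hv v' hv' hne
      rw [Finset.mem_toList, DT.mem_strs] at hv hv'
      rw [Finset.disjoint_left]
      intro z hz hz'
      obtain ⟨w, hw, h1⟩ := Finset.mem_biUnion.1 hz
      obtain ⟨w', hw', h2⟩ := Finset.mem_biUnion.1 hz'
      exact Finset.disjoint_left.1 (grR_disj (j := j) (hv.trans hv'.symm)
        ((DT.mem_strs.1 hw).trans (DT.mem_strs.1 hw').symm) fun h => hne h.1) h1 h2)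
  rw [Finset.length_toList, card_strs] at h
  refine le_trans (measureReal_mono ?_ (measure_ne_top _ _)) h
  intro A hA v hv
  rw [Finset.mem_toList, DT.mem_strs] at hv
  have h1 := hA v hv
  unfold Right
  rw [Set.mem_ofPred_eq, Set.mem_ofPred_eq]
  unfold Rt at h1
  constructor
  · rintro ⟨_, h2⟩ w hw h3
    exact h1.1 h2 w (DT.mem_strs.1 hw) h3
  · intro h2
    exact ⟨hv, h1.2 fun w hw h3 => h2 w (DT.mem_strs.2 hw) h3⟩

open Classical in
/-- for some constants all answers are right -/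
theorem prob_exists (S : Fin (m + 1) → Instr (Fin k) (m + 1)) (Q : List Bool → Bool) {T j : ℕ}
    (hT : 2 * T ≤ 2 ^ (2 * j + 1)) :
    (indep (fun _ => half)).real {A | ∃ c : Fin k → ℝ, ∀ v : List Bool, v.length = j →
      Rt c S Q A T j v} ≤
        (((4 * (2 ^ j * (8 ^ T * 3)) * 2 ^ T + 2) ^ k : ℕ) : ℝ) *
          (1 - 1 / 1024) ^ (2 ^ j / (T + 1)) := by
  obtain ⟨Cs, hCs, hrep⟩ := exists_reps S T ((DT.strs j).image (insR j))
  have hcard : ((DT.strs j).image (insR j)).card ≤ 2 ^ j := by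
    refine Finset.card_image_le.trans ?_
    rw [card_strs]
  have hsub : {A : Oracle | ∃ c : Fin k → ℝ, ∀ v : List Bool, v.length = j → Rt c S Q A T j v} ⊆
      ⋃ c ∈ Cs, {A | ∀ v : List Bool, v.length = j → Rt c S Q A T j v} := by
    rintro A ⟨c, hc⟩
    obtain ⟨c', hc', h1⟩ := hrep c
    refine Set.mem_iUnion₂.2 ⟨c', hc', fun v hv => ?_⟩
    have h2 := h1 (two Q A) (insR j v) (Finset.mem_image_of_mem _ (DT.mem_strs.2 hv))
    have h3 := hc v hv
    unfold Rt rn at h3 ⊢
    rw [← h2]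
    exact h3
  refine (measureReal_mono hsub (measure_ne_top _ _)).trans ?_
  refine (measureReal_biUnion_finset_le _ _).trans ?_
  refine (Finset.sum_le_card_nsmul _ _ _ fun c _ => prob_right c S Q hT).trans ?_
  rw [nsmul_eq_mul]
  refine mul_le_mul_of_nonneg_right ?_ (by norm_num)
  refine Nat.cast_le.2 (hCs.trans (Nat.pow_le_pow_left ?_ _))
  have h1 := Nat.mul_le_mul_right (8 ^ T * 3) hcard
  have h2 := Nat.mul_le_mul_right (2 ^ T) (Nat.mul_le_mul_left 4 h1)
  omega

/-- `(1 - 1 / 1024) ^ 1024 ≤ 1 / 2` -/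
theorem rho_le : (1 - 1 / 1024 : ℝ) ^ 1024 ≤ 1 / 2 := by
  have h1 : (1 - 1 / 1024 : ℝ) ≤ Real.exp (-(1 / 1024)) := by
    have := Real.add_one_le_exp (-(1 / 1024 : ℝ))
    linarith
  have h2 : (1 - 1 / 1024 : ℝ) ^ 1024 ≤ Real.exp (-(1 / 1024)) ^ 1024 :=
    pow_le_pow_left₀ (by norm_num) h1 _
  have h3 : Real.exp (-(1 / 1024)) ^ 1024 = Real.exp (-1) := by
    rw [← Real.exp_nat_mul]
    norm_num
  rw [h3] at h2
  refine h2.trans ?_
  rw [Real.exp_neg, inv_le_comm₀ (Real.exp_pos 1) (by norm_num)]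
  have := Real.add_one_le_exp (1 : ℝ)
  norm_num at this ⊢
  linarith

/-- the bound, for instances of size `8 i + 1` and time `2 ^ i` -/
theorem bound (k : ℕ) : ∀ᶠ i : ℕ in Filter.atTop,
    (((4 * (2 ^ (4 * i) * (8 ^ (2 ^ i) * 3)) * 2 ^ (2 ^ i) + 2) ^ k : ℕ) : ℝ) *
      (1 - 1 / 1024) ^ (2 ^ (4 * i) / (2 ^ i + 1)) ≤ (1 / 2) ^ i := by
  obtain ⟨n₀, hn₀⟩ := X9.exists_n0 (Polynomial.C (1024 * (12 * k + 2)) *
    (Polynomial.X + 1))
  rw [Filter.eventually_atTop]
  refine ⟨n₀ + 12, fun i hi => ?_⟩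
  have hN := hn₀ i (by omega)
  simp only [Polynomial.eval_mul, Polynomial.eval_C, Polynomial.eval_add, Polynomial.eval_X,
    Polynomial.eval_one] at hN
  have hi2 : i < 2 ^ i := Nat.lt_two_pow_self
  set a := 2 ^ i with ha
  -- the number of the representatives
  have h1 : 4 * (2 ^ (4 * i) * (8 ^ a * 3)) * 2 ^ a + 2 ≤ 2 ^ (4 * i + 4 * a + 4) := by
    have e1 : (8 : ℕ) ^ a = 2 ^ (3 * a) := by
      rw [pow_mul]
      norm_num
    have e2 : 4 * (2 ^ (4 * i) * (2 ^ (3 * a) * 3)) * 2 ^ a = 12 * 2 ^ (4 * i + 4 * a) := by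
      rw [pow_add, show 4 * a = 3 * a + a by ring, pow_add]
      ring
    have e3 : 1 ≤ 2 ^ (4 * i + 4 * a) := Nat.one_le_two_pow
    rw [e1, e2, pow_add (2 : ℕ) (4 * i + 4 * a) 4]
    omega
  have h2 : (4 * (2 ^ (4 * i) * (8 ^ a * 3)) * 2 ^ a + 2) ^ k ≤ 2 ^ (12 * k * a) := by
    refine (Nat.pow_le_pow_left h1 k).trans ?_
    rw [← pow_mul]
    refine Nat.pow_le_pow_right (by norm_num) ?_
    have : (4 * i + 4 * a + 4) * k ≤ (12 * a) * k := Nat.mul_le_mul_right _ (by omega)
    calc (4 * i + 4 * a + 4) * k ≤ 12 * a * k := this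
      _ = 12 * k * a := by ring
  -- the exponent
  have h3 : 1024 * (12 * k * a + i) ≤ 2 ^ (4 * i) / (a + 1) := by
    rw [Nat.le_div_iff_mul_le (by omega)]
    have e4 : 2 ^ (4 * i) = a * a * (a * a) := by
      rw [ha, ← pow_add, ← pow_add]
      congr 1
      ring
    rw [e4]
    have e5 : 1024 * (12 * k * a + i) ≤ 1024 * (12 * k + 2) * a := by
      have : i ≤ 2 * a := by omega
      calc 1024 * (12 * k * a + i) ≤ 1024 * (12 * k * a + 2 * a) := by omega
        _ = 1024 * (12 * k + 2) * a := by ring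
    have e6 : 1024 * (12 * k + 2) ≤ a := by
      refine le_trans ?_ hN
      exact Nat.le_mul_of_pos_right _ (by omega)
    have e7 : a + 1 ≤ a * a := by nlinarith
    calc 1024 * (12 * k * a + i) * (a + 1) ≤ 1024 * (12 * k + 2) * a * (a * a) :=
          Nat.mul_le_mul e5 e7
      _ ≤ a * a * (a * a) := Nat.mul_le_mul_right _ (Nat.mul_le_mul_right _ e6)
  have h4 : (1 - 1 / 1024 : ℝ) ^ (2 ^ (4 * i) / (a + 1)) ≤ (1 / 2) ^ (12 * k * a + i) := by
    refine (pow_le_pow_of_le_one (by norm_num) (by norm_num) h3).trans ?_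
    rw [pow_mul]
    exact pow_le_pow_left₀ (by positivity) rho_le _
  have h5 : (((4 * (2 ^ (4 * i) * (8 ^ a * 3)) * 2 ^ a + 2) ^ k : ℕ) : ℝ) ≤
      2 ^ (12 * k * a) := by
    exact_mod_cast h2
  calc (((4 * (2 ^ (4 * i) * (8 ^ a * 3)) * 2 ^ a + 2) ^ k : ℕ) : ℝ) *
        (1 - 1 / 1024) ^ (2 ^ (4 * i) / (a + 1))
      ≤ 2 ^ (12 * k * a) * (1 / 2) ^ (12 * k * a + i) :=
        mul_le_mul h5 h4 (by norm_num) (by positivity)
    _ = (1 / 2) ^ i := by
        rw [pow_add, ← mul_assoc, ← mul_pow]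
        norm_num

/-- **Almost surely, for every program: for all large `i` and all constants some answer is
wrong.** -/
theorem ae_code (S : Fin (m + 1) → Instr (Fin k) (m + 1)) (Q : List Bool → Bool) :
    ∀ᵐ A ∂(indep (fun _ => half)), ∀ᶠ i : ℕ in Filter.atTop,
      ¬ ∃ c : Fin k → ℝ, ∀ v : List Bool, v.length = 4 * i → Rt c S Q A (2 ^ i) (4 * i) v := by
  obtain ⟨n₀, hn₀⟩ := Filter.eventually_atTop.1 (bound k)
  have hs : ∑' i, (indep (fun _ => half)) (if n₀ ≤ i then {A | ∃ c : Fin k → ℝ,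
      ∀ v : List Bool, v.length = 4 * i → Rt c S Q A (2 ^ i) (4 * i) v} else ∅) ≠ ⊤ := by
    have hsum : Summable (fun i : ℕ => (1 / 2 : ℝ) ^ i) :=
      summable_geometric_of_lt_one (by norm_num) (by norm_num)
    refine ne_top_of_le_ne_top hsum.tsum_ofReal_ne_top (ENNReal.tsum_le_tsum fun i => ?_)
    split_ifs with hi
    · rw [← ENNReal.ofReal_toReal (measure_ne_top (indep (fun _ => half)) _)]
      apply ENNReal.ofReal_le_ofReal
      refine le_trans (prob_exists S Q ?_) (hn₀ i hi)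
      rw [← pow_succ']
      exact Nat.pow_le_pow_right (by norm_num) (by omega)
    · simp
  filter_upwards [ae_eventually_notMem hs] with A hA
  filter_upwards [hA, Filter.eventually_ge_atTop n₀] with i h1 h2
  rw [if_pos h2] at h1
  exact h1

/-- **The separation.** -/
theorem ae_sep (Q : List Bool → Bool) : ∀ᵐ A ∂(indep (fun _ => half)),
    ∀ M : Machine ℝ, ∀ᶠ i : ℕ in Filter.atTop, ∃ x : List ℝ, x.length = 8 * i + 1 ∧
      ¬ RightOn M Q A (2 ^ i) (langR A) x := by
  have h : ∀ᵐ A ∂(indep (fun _ => half)), ∀ (k m : ℕ)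
      (S : Fin (m + 1) → Instr (Fin k) (m + 1)), ∀ᶠ i : ℕ in Filter.atTop,
      ¬ ∃ c : Fin k → ℝ, ∀ v : List Bool, v.length = 4 * i → Rt c S Q A (2 ^ i) (4 * i) v := by
    rw [ae_all_iff]
    intro k
    rw [ae_all_iff]
    intro m
    rw [ae_all_iff]
    intro S
    exact ae_code S Q
  filter_upwards [h] with A hA
  intro M
  filter_upwards [hA _ _ (fun q => (M.prog q).sh q)] with i hi
  by_contra hcon
  push Not at hcon
  apply hi
  refine ⟨fun q => (M.prog q).cst, fun v hv => ?_⟩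
  have hl : ((insR (4 * i) v).map (bit ℝ)).length = 8 * i + 1 := by
    simp [insR, hv]
    omega
  obtain ⟨b, h1, h2⟩ := hcon _ hl
  unfold Rt rn
  rw [runR_sh]
  unfold answerR at h1
  rw [h1, Option.some.injEq]
  have h4 : b = false ↔ ¬ (b = true) := by cases b <;> simp
  rw [h4, h2, insR_mem A hv]
  push Not
  rfl

/-- **The separation, with parameters which may depend on the size.** -/
theorem ae_params (Q : List Bool → Bool) : ∀ᵐ A ∂(indep (fun _ => half)),
    ∀ (k m : ℕ) (S : Fin (m + 1) → Instr (Fin k) (m + 1)), ∀ᶠ i : ℕ in Filter.atTop,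
      ∀ c : Fin k → ℝ, ∃ w : List Bool, w.length = 8 * i + 1 ∧
        ¬ ∃ b : Bool, runR c (two Q A) S (2 ^ i) 0 (place (w.map (bit ℝ))) = some b ∧
          (b = true ↔ w.map (bit ℝ) ∈ langR A) := by
  have h : ∀ᵐ A ∂(indep (fun _ => half)), ∀ (k m : ℕ)
      (S : Fin (m + 1) → Instr (Fin k) (m + 1)), ∀ᶠ i : ℕ in Filter.atTop,
      ¬ ∃ c : Fin k → ℝ, ∀ v : List Bool, v.length = 4 * i → Rt c S Q A (2 ^ i) (4 * i) v := by
    rw [ae_all_iff]
    intro k
    rw [ae_all_iff]
    intro m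
    rw [ae_all_iff]
    intro S
    exact ae_code S Q
  filter_upwards [h] with A hA
  intro k m S
  filter_upwards [hA k m S] with i hi
  intro c
  by_contra hcon
  push Not at hcon
  apply hi
  refine ⟨c, fun v hv => ?_⟩
  have hl : (insR (4 * i) v).length = 8 * i + 1 := by
    simp [insR, hv]
    omega
  obtain ⟨b, h1, h2⟩ := hcon _ hl
  unfold Rt rn
  rw [h1, Option.some.injEq]
  have h4 : b = false ↔ ¬ (b = true) := by cases b <;> simp
  rw [h4, h2, insR_mem A hv]
  push Not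
  rfl

theorem gd_boo {A : List Bool → Bool} {l : List ℝ} (h : Gd A l) : boo A l := by
  cases l with
  | nil => exact absurd h (fun h => h)
  | cons a l => exact h.1

theorem boo_tail {A : List Bool → Bool} {x y : List ℝ} (h : boo A (x ++ y)) :
    ∃ w : List Bool, y = w.map (bit ℝ) := by
  obtain ⟨w, h1, _⟩ := h
  refine ⟨w.drop x.length, ?_⟩
  rw [List.map_drop, ← h1]
  simp

end Pool.Agent.TH680.BSR
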