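import Pool.Agent.TH680.SE.Par

/-! Many independent instances. -/

set_option autoImplicit false

namespace Pool.Agent.TH680.BSR

open Pool.Agent.NPC Pool.Agent.H620R2.Gauge Pool.Agent.H591R3.PHG MeasureTheory ProbabilityTheory
  Finset Pool.Agent.W900.IE Pool.Agent.W900.PS Pool.Agent.H622R2 Pool.Agent.W900
  Pool.Agent.TH680.SE

variable (p : List Bool → unitInterval)

/-- **One instance.** -/
theorem one_step {C G : Set Oracle} {D D' : Finset (List Bool)} (hC : DepO D C) (hG : DepO D' G)
    (hGC : G ⊆ C) {W : Finset (List Bool)} {g : List Bool → Finset (List Bool)} {t : Oracle}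
    {Acc : Set Oracle} {π : ℝ} (hπ0 : 0 ≤ π)
    (hsep : ∀ w ∈ W, ∀ w' ∈ W, w ≠ w' → Disjoint (g w) (g w'))
    (hD : ∀ w ∈ W, Disjoint D (g w)) (hπ : ∀ w ∈ W, ∏ z ∈ g w, ber (p z) (t z) = π)
    (hμ : W.card * π = 1 / 2) (hR : ∀ A ∈ G, (A ∈ Acc ↔ ∀ w ∈ W, A ∉ wit (g w) t))
    (hcert : ∀ A ∈ Acc, ∃ T : Finset (List Bool), 2 * T.card ≤ W.card ∧
      ∀ A', (∀ z ∈ T, A' z = A z) → A' ∈ Acc) :
    (indep p).real G ≤ (1 - 1 / 1024) * (indep p).real C := by
  classical
  have hdiff : (indep p).real (C \ G) = (indep p).real C - (indep p).real G :=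
    measureReal_sdiff hGC hG.measurable
  by_contra hcon
  push Not at hcon
  have hG0 : (indep p).real G ≤ (indep p).real C := measureReal_mono hGC
  have hC0 : 0 ≤ (indep p).real C := measureReal_nonneg
  have hCpos : 0 < (indep p).real C := by
    rcases hC0.lt_or_eq with h | h
    · exact h
    · rw [← h] at hcon hG0
      simp only [mul_zero] at hcon
      linarith
  have hε : (indep p).real (C \ G) ≤ (1 / 1024) * (indep p).real C := by
    rw [hdiff]
    linarith
  have h1 := step p hC hG hGC hπ0 hsep hD hπ hμ.le hR hcert hε (by norm_num)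
  have h2 := moment (indep p) W (fun w => wit (g w) t) (fun w => (wit_dep _ _).measurable)
    (X := C \ G) (C := C) (MeasurableSet.diff hC.measurable hG.measurable) hC.measurable
    Set.sdiff_subset (K := 24) (by norm_num)
  have hpair : ∀ w ∈ W, ∀ w' ∈ W, (indep p).real (C ∩ (wit (g w) t ∩ wit (g w') t)) ≤
      (indep p).real C * (π * π) + (if w = w' then (indep p).real C * π else 0) := by
    intro w hw w' hw'
    by_cases h : w = w'
    · subst h
      rw [if_pos rfl, Set.inter_self, real_match p hC t _ (hD w hw), hπ w hw]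
      have : 0 ≤ (indep p).real C * (π * π) := by positivity
      linarith
    · rw [if_neg h, add_zero, pair_prob p hC (hD w hw) (hD w' hw') (hsep w hw w' hw' h), hπ w hw,
        hπ w' hw']
  have hss : ∑ w ∈ W, ∑ w' ∈ W, (indep p).real (C ∩ (wit (g w) t ∩ wit (g w') t)) ≤
      (indep p).real C * (1 / 4) + (indep p).real C * (1 / 2) := by
    refine (Finset.sum_le_sum fun w hw => Finset.sum_le_sum fun w' hw' => hpair w hw w' hw').trans
      (le_of_eq ?_)
    have h3 : ∀ w ∈ W, ∑ w' ∈ W, ((indep p).real C * (π * π) +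
        (if w = w' then (indep p).real C * π else 0)) =
        (indep p).real C * π * (W.card * π) + (indep p).real C * π := by
      intro w hw
      rw [Finset.sum_add_distrib, Finset.sum_ite_eq, if_pos hw, Finset.sum_const, nsmul_eq_mul]
      ring
    rw [Finset.sum_congr rfl h3, Finset.sum_const, nsmul_eq_mul, hμ]
    have h4 : (W.card : ℝ) * ((indep p).real C * π * (1 / 2) + (indep p).real C * π) =
        (W.card * π) * ((indep p).real C * (1 / 2) + (indep p).real C) := by ring
    rw [h4, hμ]
    ring
  have h3 : (W.card : ℝ) * π / 8 = 1 / 16 := by rw [hμ]; norm_num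
  rw [h3] at h1
  have h4 : (∑ w ∈ W, ∑ w' ∈ W, (indep p).real (C ∩ (wit (g w) t ∩ wit (g w') t))) / 24 ≤
      ((indep p).real C * (1 / 4) + (indep p).real C * (1 / 2)) / 24 :=
    div_le_div_of_nonneg_right hss (by norm_num)
  have h5 : 24 * (indep p).real (C \ G) ≤ 24 * (1 / 1024 * (indep p).real C) :=
    mul_le_mul_of_nonneg_left hε (by norm_num)
  have h6 : 1 / 16 * (indep p).real C ≤ 24 * (1 / 1024 * (indep p).real C) +
      ((indep p).real C * (1 / 4) + (indep p).real C * (1 / 2)) / 24 :=
    h1.trans (h2.trans (add_le_add h5 h4))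
  linarith

/-! ### The process -/

section

variable {W : Finset (List Bool)} {g : List Bool → List Bool → Finset (List Bool)} {t : Oracle}
  {Acc : List Bool → Set Oracle} {qs : List Bool → Oracle → Finset (List Bool)}

/-- the strings of an instance -/
def gp (W : Finset (List Bool)) (g : List Bool → List Bool → Finset (List Bool))
    (v : List Bool) : Finset (List Bool) := W.biUnion (g v)

/-- the answer for the instance `v` is right -/
def Right (W : Finset (List Bool)) (g : List Bool → List Bool → Finset (List Bool)) (t : Oracle)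
    (Acc : List Bool → Set Oracle) (v : List Bool) : Set Oracle :=
  {A | A ∈ Acc v ↔ ∀ w ∈ W, A ∉ wit (g v w) t}

open Classical in
/-- the questions -/
noncomputable def Zs (W : Finset (List Bool)) (g : List Bool → List Bool → Finset (List Bool))
    (qs : List Bool → Oracle → Finset (List Bool)) : List (List Bool) → Oracle →
      Finset (List Bool)
  | [], _ => ∅
  | v :: vs, A => if Disjoint (Zs W g qs vs A) (gp W g v) then Zs W g qs vs A ∪ qs v A
      else Zs W g qs vs A

open Classical in
/-- the number of the instances which are used -/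
noncomputable def cnt (W : Finset (List Bool)) (g : List Bool → List Bool → Finset (List Bool))
    (qs : List Bool → Oracle → Finset (List Bool)) : List (List Bool) → Oracle → ℕ
  | [], _ => 0
  | v :: vs, A => if Disjoint (Zs W g qs vs A) (gp W g v) then cnt W g qs vs A + 1
      else cnt W g qs vs A

/-- all answers for the instances which are used are right -/
def ok (W : Finset (List Bool)) (g : List Bool → List Bool → Finset (List Bool)) (t : Oracle)
    (Acc : List Bool → Set Oracle) (qs : List Bool → Oracle → Finset (List Bool)) :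
      List (List Bool) → Oracle → Prop
  | [], _ => True
  | v :: vs, A => ok W g t Acc qs vs A ∧
      (Disjoint (Zs W g qs vs A) (gp W g v) → A ∈ Right W g t Acc v)

theorem ok_of_all {vs : List (List Bool)} {A : Oracle} (h : ∀ v ∈ vs, A ∈ Right W g t Acc v) :
    ok W g t Acc qs vs A := by
  induction vs with
  | nil => trivial
  | cons v vs ih =>
    exact ⟨ih fun v' hv' => h v' (List.mem_cons_of_mem _ hv'), fun _ => h v List.mem_cons_self⟩

theorem right_iff {v : List Bool} {A A' : Oracle} (h : ∀ z ∈ gp W g v, A' z = A z)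
    (hA : A ∈ Acc v ↔ A' ∈ Acc v) : A' ∈ Right W g t Acc v ↔ A ∈ Right W g t Acc v := by
  have h1 : ∀ w ∈ W, (A' ∈ wit (g v w) t ↔ A ∈ wit (g v w) t) := by
    intro w hw
    have h2 : ∀ z ∈ g v w, A' z = A z := fun z hz =>
      h z (Finset.mem_biUnion.2 ⟨w, hw, hz⟩)
    exact ⟨wit_dep _ _ A' A h2, wit_dep _ _ A A' fun z hz => (h2 z hz).symm⟩
  unfold Right
  rw [Set.mem_ofPred_eq, Set.mem_ofPred_eq, hA]
  exact iff_congr Iff.rfl (forall₂_congr fun w hw => not_congr (h1 w hw))

theorem stab (hst : ∀ v A A', (∀ z ∈ qs v A, A' z = A z) → qs v A' = qs v A ∧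
      (A ∈ Acc v ↔ A' ∈ Acc v)) {A A' : Oracle} : ∀ vs : List (List Bool),
    (∀ z ∈ Zs W g qs vs A, A' z = A z) → (∀ v ∈ vs, ∀ z ∈ gp W g v, A' z = A z) →
      Zs W g qs vs A' = Zs W g qs vs A ∧ cnt W g qs vs A' = cnt W g qs vs A ∧
        (ok W g t Acc qs vs A' ↔ ok W g t Acc qs vs A) := by
  intro vs
  induction vs with
  | nil => intro _ _; exact ⟨rfl, rfl, Iff.rfl⟩
  | cons v vs ih =>
    intro h1 h2
    have hsub : Zs W g qs vs A ⊆ Zs W g qs (v :: vs) A := by
      rw [Zs]
      split_ifs
      · exact Finset.subset_union_left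
      · exact Finset.Subset.refl _
    obtain ⟨e1, e2, e3⟩ := ih (fun z hz => h1 z (hsub hz))
      fun v' hv' => h2 v' (List.mem_cons_of_mem _ hv')
    by_cases hd : Disjoint (Zs W g qs vs A) (gp W g v)
    · have h3 : ∀ z ∈ qs v A, A' z = A z := by
        intro z hz
        apply h1
        rw [Zs, if_pos hd]
        exact Finset.mem_union_right _ hz
      obtain ⟨e4, e5⟩ := hst v A A' h3
      refine ⟨?_, ?_, ?_⟩
      · rw [Zs, Zs, e1, if_pos hd, if_pos hd, e4]
      · rw [cnt, cnt, e1, e2]
      · rw [ok, ok, e1, e3, right_iff (h2 v List.mem_cons_self) e5]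
    · refine ⟨?_, ?_, ?_⟩
      · rw [Zs, Zs, e1, if_neg hd, if_neg hd]
      · rw [cnt, cnt, e1, e2]
      · rw [ok, ok, e1, e3]
        exact and_congr_right fun _ => ⟨fun _ h => absurd h hd, fun _ h => absurd h hd⟩

theorem zs_card {T : ℕ} (hT : ∀ v A, (qs v A).card ≤ T) (A : Oracle) :
    ∀ vs : List (List Bool), (Zs W g qs vs A).card ≤ T * cnt W g qs vs A := by
  classical
  intro vs
  induction vs with
  | nil => simp [Zs]
  | cons v vs ih =>
    rw [Zs, cnt]
    split_ifs
    · refine (Finset.card_union_le _ _).trans ?_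
      have := hT v A
      rw [mul_add, mul_one]
      omega
    · exact ih

theorem len_le (A : Oracle) : ∀ vs : List (List Bool), vs.Nodup →
    vs.length ≤ cnt W g qs vs A +
      (vs.toFinset.filter (fun v => ¬ Disjoint (Zs W g qs vs A) (gp W g v))).card := by
  classical
  intro vs
  induction vs with
  | nil => intro _; simp
  | cons v vs ih =>
    intro hn
    have hn' := List.nodup_cons.1 hn
    have h1 := ih hn'.2
    rw [List.length_cons, List.toFinset_cons]
    by_cases hd : Disjoint (Zs W g qs vs A) (gp W g v)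
    · have e1 : cnt W g qs (v :: vs) A = cnt W g qs vs A + 1 := by rw [cnt, if_pos hd]
      have e2 : Zs W g qs (v :: vs) A = Zs W g qs vs A ∪ qs v A := by rw [Zs, if_pos hd]
      rw [e1, e2]
      have h2 : (vs.toFinset.filter (fun v => ¬ Disjoint (Zs W g qs vs A) (gp W g v))).card ≤
          ((insert v vs.toFinset).filter
            (fun v' => ¬ Disjoint (Zs W g qs vs A ∪ qs v A) (gp W g v'))).card := by
        apply Finset.card_le_card
        intro v' hv'
        rw [Finset.mem_filter] at hv' ⊢
        refine ⟨Finset.mem_insert_of_mem hv'.1, fun h3 => hv'.2 ?_⟩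
        exact Finset.disjoint_of_subset_left Finset.subset_union_left h3
      omega
    · have e1 : cnt W g qs (v :: vs) A = cnt W g qs vs A := by rw [cnt, if_neg hd]
      have e2 : Zs W g qs (v :: vs) A = Zs W g qs vs A := by rw [Zs, if_neg hd]
      rw [e1, e2, Finset.filter_insert, if_pos hd, Finset.card_insert_of_notMem]
      · omega
      · rw [Finset.mem_filter, List.mem_toFinset]
        exact fun h3 => hn'.1 h3.1

theorem cnt_ge {T : ℕ} (hT : ∀ v A, (qs v A).card ≤ T) {vs : List (List Bool)} (hn : vs.Nodup)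
    (hdis : ∀ v ∈ vs, ∀ v' ∈ vs, v ≠ v' → Disjoint (gp W g v) (gp W g v')) (A : Oracle) :
    vs.length ≤ (T + 1) * cnt W g qs vs A := by
  classical
  have h1 := len_le (W := W) (g := g) (qs := qs) A vs hn
  have h2 := card_bad (W := vs.toFinset) (T := Zs W g qs vs A) (g := gp W g) (by
    intro v hv v' hv' hne
    exact hdis v (List.mem_toFinset.1 hv) v' (List.mem_toFinset.1 hv') hne)
  have h3 := zs_card (W := W) (g := g) hT A vs
  have h4 : (T + 1) * cnt W g qs vs A = T * cnt W g qs vs A + cnt W g qs vs A := by ring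
  have h5 : (vs.toFinset.filter (fun v => ¬ Disjoint (Zs W g qs vs A) (gp W g v))).card ≤
      (Zs W g qs vs A).card := by
    convert h2
  omega

theorem cnt_le (A : Oracle) : ∀ vs : List (List Bool), cnt W g qs vs A ≤ vs.length := by
  intro vs
  induction vs with
  | nil => simp [cnt]
  | cons v vs ih =>
    rw [cnt, List.length_cons]
    split_ifs
    · omega
    · omega

theorem zs_sub {F : Finset (List Bool)} (hF : ∀ v A, qs v A ⊆ F) (A : Oracle) :
    ∀ vs : List (List Bool), Zs W g qs vs A ⊆ F := by
  classical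
  intro vs
  induction vs with
  | nil => simp [Zs]
  | cons v vs ih =>
    rw [Zs]
    split_ifs
    · exact Finset.union_subset ih (hF v A)
    · exact ih

end

end Pool.Agent.TH680.BSR
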