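import Pool.Agent.TH680.BSR.Sym
import Pool.Agent.TH680.BSS.Hom

/-! The questions of machines over the reals. -/

set_option autoImplicit false

namespace Pool.Agent.TH680.BSR

open Pool.Agent.TH680.BSS

universe v

/-- the question which is written in the sequence -/
noncomputable def wd (x : ℤ → ℝ) : Finset (List Bool) := Classical.choose (exists_word x)

theorem wd_card (x : ℤ → ℝ) : (wd x).card ≤ 1 := (Classical.choose_spec (exists_word x)).1

theorem wd_spec (x : ℤ → ℝ) (Q A A' : List Bool → Bool) (b : Bool) (h : ∀ z ∈ wd x, A z = A' z) :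
    (∃ w : List Bool, Reads x (w.map (bit ℝ)) ∧ two Q A b w = true) ↔
      ∃ w : List Bool, Reads x (w.map (bit ℝ)) ∧ two Q A' b w = true :=
  (Classical.choose_spec (exists_word x)).2 Q A A' b h

variable {C : Type v} {m : ℕ}

open Classical in
/-- the questions -/
noncomputable def qR (c : C → ℝ) (Q A : List Bool → Bool) (M : Fin m → Instr C m) :
    ℕ → Fin m → (ℤ → ℝ) → Finset (List Bool)
  | 0, _, _ => ∅
  | t + 1, q, x => match M q with
      | .op o i j k q' => qR c Q A M t q' (Function.update x i (o.ev (x j) (x k)))
      | .const a i q' => qR c Q A M t q' (Function.update x i (c a))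
      | .copy i j q' => qR c Q A M t q' (Function.update x i (x j))
      | .shift s q' => qR c Q A M t q' (fun z => x (z + s))
      | .test i yes no => if 0 ≤ x i then qR c Q A M t yes x else qR c Q A M t no x
      | .ask b yes no => wd x ∪
          (if ∃ w : List Bool, Reads x (w.map (bit ℝ)) ∧ two Q A b w = true then
            qR c Q A M t yes x else qR c Q A M t no x)
      | .halt _ => ∅

open Classical in
theorem qR_card (c : C → ℝ) (Q A : List Bool → Bool) (M : Fin m → Instr C m) : ∀ (t : ℕ)
    (q : Fin m) (x : ℤ → ℝ), (qR c Q A M t q x).card ≤ t := by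
  intro t
  induction t with
  | zero => intro q x; simp [qR]
  | succ t ih =>
    intro q x
    rw [qR]
    cases M q with
    | op o i j k q' => exact (ih _ _).trans (Nat.le_succ t)
    | const a i q' => exact (ih _ _).trans (Nat.le_succ t)
    | copy i j q' => exact (ih _ _).trans (Nat.le_succ t)
    | shift s q' => exact (ih _ _).trans (Nat.le_succ t)
    | test i yes no =>
      simp only
      split_ifs
      · exact (ih _ _).trans (Nat.le_succ t)
      · exact (ih _ _).trans (Nat.le_succ t)
    | ask b yes no =>
      simp only
      refine (Finset.card_union_le _ _).trans ?_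
      have h1 := wd_card x
      split_ifs
      · have := ih yes x
        omega
      · have := ih no x
        omega
    | halt b => simp

open Classical in
theorem qR_stab (c : C → ℝ) (Q A A' : List Bool → Bool) (M : Fin m → Instr C m) : ∀ (t : ℕ)
    (q : Fin m) (x : ℤ → ℝ), (∀ z ∈ qR c Q A M t q x, A' z = A z) →
      qR c Q A' M t q x = qR c Q A M t q x ∧
        runR c (two Q A') M t q x = runR c (two Q A) M t q x := by
  intro t
  induction t with
  | zero => intro q x _; exact ⟨rfl, rfl⟩
  | succ t ih =>
    intro q x h
    simp only [qR, runR] at h ⊢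
    cases hq : M q with
    | op o i j k q' => rw [hq] at h; exact ih _ _ h
    | const a i q' => rw [hq] at h; exact ih _ _ h
    | copy i j q' => rw [hq] at h; exact ih _ _ h
    | shift s q' => rw [hq] at h; exact ih _ _ h
    | test i yes no =>
      rw [hq] at h
      simp only at h ⊢
      by_cases hx : 0 ≤ x i
      · rw [if_pos hx] at h
        simp only [if_pos hx]
        exact ih _ _ h
      · rw [if_neg hx] at h
        simp only [if_neg hx]
        exact ih _ _ h
    | ask b yes no =>
      rw [hq] at h
      simp only at h ⊢
      have h1 := wd_spec x Q A' A b fun z hz => h z (Finset.mem_union_left _ hz)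
      by_cases hx : ∃ w : List Bool, Reads x (w.map (bit ℝ)) ∧ two Q A b w = true
      · have hx' := h1.2 hx
        have h2 : ∀ z ∈ qR c Q A M t yes x, A' z = A z := fun z hz =>
          h z (Finset.mem_union_right _ (by rw [if_pos hx]; exact hz))
        simp only [if_pos hx, if_pos hx']
        obtain ⟨e1, e2⟩ := ih _ _ h2
        exact ⟨by rw [e1], e2⟩
      · have hx' := fun h3 => hx (h1.1 h3)
        have h2 : ∀ z ∈ qR c Q A M t no x, A' z = A z := fun z hz =>
          h z (Finset.mem_union_right _ (by rw [if_neg hx]; exact hz))
        simp only [if_neg hx, if_neg hx']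
        obtain ⟨e1, e2⟩ := ih _ _ h2
        exact ⟨by rw [e1], e2⟩
    | halt b => exact ⟨rfl, rfl⟩

open Classical in
theorem qR_fin (c : C → ℝ) (Q : List Bool → Bool) (M : Fin m → Instr C m) : ∀ (t : ℕ)
    (q : Fin m) (x : ℤ → ℝ), ∃ F : Finset (List Bool), ∀ A, qR c Q A M t q x ⊆ F := by
  intro t
  induction t with
  | zero => intro q x; exact ⟨∅, fun A => by simp [qR]⟩
  | succ t ih =>
    intro q x
    simp only [qR]
    cases hq : M q with
    | op o i j k q' => exact ih _ _
    | const a i q' => exact ih _ _
    | copy i j q' => exact ih _ _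
    | shift s q' => exact ih _ _
    | test i yes no =>
      simp only
      split_ifs
      · exact ih _ _
      · exact ih _ _
    | ask b yes no =>
      obtain ⟨F₁, h₁⟩ := ih yes x
      obtain ⟨F₂, h₂⟩ := ih no x
      refine ⟨wd x ∪ (F₁ ∪ F₂), fun A => Finset.union_subset_union_right ?_⟩
      split_ifs
      · exact (h₁ A).trans Finset.subset_union_left
      · exact (h₂ A).trans Finset.subset_union_right
    | halt b => exact ⟨∅, fun A => by simp⟩

/-- more time -/
theorem runR_mono (c : C → ℝ) (O : Bool → List Bool → Bool) (M : Fin m → Instr C m) :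
    ∀ (t t' : ℕ) (q : Fin m) (x : ℤ → ℝ) (b : Bool), t ≤ t' → runR c O M t q x = some b →
      runR c O M t' q x = some b := by
  classical
  intro t
  induction t with
  | zero => intro t' q x b _ h; simp [runR] at h
  | succ t ih =>
    intro t' q x b ht h
    obtain ⟨t', rfl⟩ : ∃ s, t' = s + 1 := ⟨t' - 1, by omega⟩
    simp only [runR] at h ⊢
    cases hq : M q with
    | op o i j k q' => rw [hq] at h; exact ih _ _ _ _ (by omega) h
    | const a i q' => rw [hq] at h; exact ih _ _ _ _ (by omega) h
    | copy i j q' => rw [hq] at h; exact ih _ _ _ _ (by omega) h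
    | shift s q' => rw [hq] at h; exact ih _ _ _ _ (by omega) h
    | test i yes no =>
      rw [hq] at h
      simp only at h ⊢
      split_ifs at h ⊢ with h1
      · exact ih _ _ _ _ (by omega) h
      · exact ih _ _ _ _ (by omega) h
    | ask a yes no =>
      rw [hq] at h
      simp only at h ⊢
      split_ifs at h ⊢ with h1
      · exact ih _ _ _ _ (by omega) h
      · exact ih _ _ _ _ (by omega) h
    | halt a => rw [hq] at h; exact h

theorem runR_sh (M : Fin m → Instr ℝ m) (O : Bool → List Bool → Bool) : ∀ (t : ℕ)
    (q : Fin m) (x : ℤ → ℝ),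
    runR (fun q => (M q).cst) O (fun q => (M q).sh q) t q x = runR id O M t q x := by
  classical
  intro t
  induction t with
  | zero => intro q x; rfl
  | succ t ih =>
    intro q x
    rw [runR, runR]
    cases hq : M q with
    | op o i j k q' => exact ih _ _
    | const a i q' =>
      simp only [Instr.sh, hq, Instr.cst, id]
      exact ih _ _
    | copy i j q' => exact ih _ _
    | shift s q' => exact ih _ _
    | test i yes no => exact if_congr Iff.rfl (ih _ _) (ih _ _)
    | ask b yes no => exact if_congr Iff.rfl (ih _ _) (ih _ _)
    | halt b => rfl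

end Pool.Agent.TH680.BSR
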