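import Pool.Agent.TH680.BSS.Loc
import Pool.Agent.Helper448.Warren

/-! Machines over the reals with order tests: the sign patterns of the constants. -/

set_option autoImplicit false

namespace Pool.Agent.TH680.BSR

open Pool.Agent.TH680.BSS MvPolynomial

universe v

/-- The answer of the program `M` over the real numbers; at a branch node the machine tests whether
entry `i` is `≥ 0`. -/
noncomputable def runR {C : Type v} {m : ℕ} (c : C → ℝ) (O : Bool → List Bool → Bool)
    (M : Fin m → Instr C m) : ℕ → Fin m → (ℤ → ℝ) → Option Bool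
  | 0, _, _ => none
  | t + 1, q, x => by
      classical
      exact match M q with
      | .op o i j k q' => runR c O M t q' (Function.update x i (o.ev (x j) (x k)))
      | .const a i q' => runR c O M t q' (Function.update x i (c a))
      | .copy i j q' => runR c O M t q' (Function.update x i (x j))
      | .shift s q' => runR c O M t q' (fun z => x (z + s))
      | .test i yes no => if 0 ≤ x i then runR c O M t yes x else runR c O M t no x
      | .ask b yes no =>
          if ∃ w : List Bool, Reads x (w.map (bit ℝ)) ∧ O b w = true then runR c O M t yes x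
          else runR c O M t no x
      | .halt b => some b

variable {k : ℕ}

/-- symbolic values: numerator and denominator -/
abbrev Sy (k : ℕ) : Type := MvPolynomial (Fin k) ℝ × MvPolynomial (Fin k) ℝ

/-- the value -/
noncomputable def vl (c : Fin k → ℝ) (s : Sy k) : ℝ := eval c s.1 / eval c s.2

/-- the operations -/
noncomputable def sop : Op → Sy k → Sy k → Sy k
  | .add, s, s' => (s.1 * s'.2 + s'.1 * s.2, s.2 * s'.2)
  | .sub, s, s' => (s.1 * s'.2 - s'.1 * s.2, s.2 * s'.2)
  | .mul, s, s' => (s.1 * s'.1, s.2 * s'.2)
  | .div, s, s' => (s.1 * s'.2, s.2 * s'.1)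

theorem vl_sop {c : Fin k → ℝ} {s s' : Sy k} (h : eval c s.2 ≠ 0) (h' : eval c s'.2 ≠ 0) (o : Op)
    (h0 : eval c s'.1 ≠ 0) : vl c (sop o s s') = o.ev (vl c s) (vl c s') ∧
      eval c (sop o s s').2 ≠ 0 := by
  cases o <;> simp only [sop, vl, Op.ev, map_add, map_sub, map_mul]
  · refine ⟨?_, mul_ne_zero h h'⟩
    field_simp
  · refine ⟨?_, mul_ne_zero h h'⟩
    field_simp
  · refine ⟨?_, mul_ne_zero h h'⟩
    field_simp
  · refine ⟨?_, mul_ne_zero h h0⟩
    field_simp

/-- the operation if the second argument is zero -/
noncomputable def sop0 : Op → Sy k → Sy k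
  | .add, s => s
  | .sub, s => s
  | .mul, _ => (C 0, 1)
  | .div, _ => (C 0, 1)

theorem vl_sop0 {c : Fin k → ℝ} {s s' : Sy k} (h : eval c s.2 ≠ 0) (o : Op)
    (h0 : eval c s'.1 = 0) : vl c (sop0 o s) = o.ev (vl c s) (vl c s') ∧
      eval c (sop0 o s).2 ≠ 0 := by
  cases o <;> simp [sop0, vl, Op.ev, h0, h]

open Classical in
/-- the polynomials whose signs determine the run -/
noncomputable def pol {m : ℕ} (M : Fin m → Instr (Fin k) m) :
    ℕ → Fin m → (ℤ → Sy k) → Finset (Sy k) → Finset (MvPolynomial (Fin k) ℝ)
  | 0, _, _, _ => ∅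
  | t + 1, q, σ, V => match M q with
      | .op o i j l q' => insert (σ l).1
          (pol M t q' (Function.update σ i (sop0 o (σ j))) (insert (sop0 o (σ j)) V) ∪
            pol M t q' (Function.update σ i (sop o (σ j) (σ l))) (insert (sop o (σ j) (σ l)) V))
      | .const a i q' => pol M t q' (Function.update σ i (X a, 1)) (insert (X a, 1) V)
      | .copy i j q' => pol M t q' (Function.update σ i (σ j)) V
      | .shift s q' => pol M t q' (fun z => σ (z + s)) V
      | .test i yes no => insert ((σ i).1 * (σ i).2) (pol M t yes σ V ∪ pol M t no σ V)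
      | .ask _ yes no => (V.image (fun s => s.1) ∪ V.image (fun s => s.1 - s.2)) ∪
          (pol M t yes σ V ∪ pol M t no σ V)
      | .halt _ => ∅

/-- the same signs -/
def SS (c c' : Fin k → ℝ) (F : Finset (MvPolynomial (Fin k) ℝ)) : Prop :=
  ∀ f ∈ F, SignType.sign (eval c f) = SignType.sign (eval c' f)

theorem sign_zero_iff {a b : ℝ} (h : SignType.sign a = SignType.sign b) : a = 0 ↔ b = 0 := by
  rw [← sign_eq_zero_iff, h, sign_eq_zero_iff]

theorem sign_nonneg_iff' {a b : ℝ} (h : SignType.sign a = SignType.sign b) : 0 ≤ a ↔ 0 ≤ b := by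
  rw [← not_lt, ← not_lt, ← sign_eq_neg_one_iff, h, sign_eq_neg_one_iff]

theorem vl_zero {c : Fin k → ℝ} {s : Sy k} (h : eval c s.2 ≠ 0) : vl c s = 0 ↔ eval c s.1 = 0 := by
  unfold vl
  rw [div_eq_zero_iff]
  simp [h]

theorem vl_one {c : Fin k → ℝ} {s : Sy k} (h : eval c s.2 ≠ 0) :
    vl c s = 1 ↔ eval c (s.1 - s.2) = 0 := by
  unfold vl
  rw [div_eq_one_iff_eq h, map_sub, sub_eq_zero]

theorem vl_nonneg {c : Fin k → ℝ} {s : Sy k} (h : eval c s.2 ≠ 0) :
    0 ≤ vl c s ↔ 0 ≤ eval c (s.1 * s.2) := by
  unfold vl
  have h1 : eval c s.1 / eval c s.2 = eval c (s.1 * s.2) / (eval c s.2) ^ 2 := by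
    rw [map_mul]
    field_simp
  have h2 : 0 < (eval c s.2) ^ 2 := by positivity
  rw [h1]
  constructor
  · intro h3
    by_contra h4
    push Not at h4
    have := div_neg_of_neg_of_pos h4 h2
    linarith
  · exact fun h3 => div_nonneg h3 h2.le

theorem update_vl (c : Fin k → ℝ) (σ : ℤ → Sy k) (i : ℤ) (s : Sy k) :
    Function.update (fun z => vl c (σ z)) i (vl c s) = fun z => vl c (Function.update σ i s z) := by
  funext z
  by_cases h : z = i
  · subst h
    simp
  · simp [h]

theorem mem_update {σ : ℤ → Sy k} {V : Finset (Sy k)} (h : ∀ z, σ z ∈ V) (i : ℤ) (s : Sy k)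
    [DecidableEq (Sy k)] : ∀ z, Function.update σ i s z ∈ insert s V := by
  intro z
  by_cases hz : z = i
  · subst hz
    simp
  · rw [Function.update_of_ne hz]
    exact Finset.mem_insert_of_mem (h z)

open Classical in
/-- **The signs of the polynomials determine the run.** -/
theorem run_same {m : ℕ} (M : Fin m → Instr (Fin k) m) {c c' : Fin k → ℝ}
    (O : Bool → List Bool → Bool) : ∀ (t : ℕ) (q : Fin m) (σ : ℤ → Sy k) (V : Finset (Sy k)),
      (∀ z, σ z ∈ V) → (∀ s ∈ V, eval c s.2 ≠ 0) → (∀ s ∈ V, eval c' s.2 ≠ 0) →
      SS c c' (pol M t q σ V) →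
      runR c O M t q (fun z => vl c (σ z)) = runR c' O M t q (fun z => vl c' (σ z)) := by
  intro t
  induction t with
  | zero => intro q σ V _ _ _ _; rfl
  | succ t ih =>
    intro q σ V hσ hc hc' hS
    simp only [runR, pol] at hS ⊢
    cases hq : M q with
    | op o i j l q' =>
      rw [hq] at hS
      simp only at hS ⊢
      have h1 := sign_zero_iff (hS _ (Finset.mem_insert_self _ _))
      by_cases h0 : eval c (σ l).1 = 0
      · have e1 := vl_sop0 (s' := σ l) (hc _ (hσ j)) o h0
        have e2 := vl_sop0 (s' := σ l) (hc' _ (hσ j)) o (h1.1 h0)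
        rw [← e1.1, ← e2.1, update_vl, update_vl]
        refine ih q' _ _ (mem_update hσ i _) ?_ ?_ fun f hf => hS f
          (Finset.mem_insert_of_mem (Finset.mem_union_left _ hf))
        · intro s hs
          rcases Finset.mem_insert.1 hs with rfl | hs
          · exact e1.2
          · exact hc s hs
        · intro s hs
          rcases Finset.mem_insert.1 hs with rfl | hs
          · exact e2.2
          · exact hc' s hs
      · have e1 := vl_sop (hc _ (hσ j)) (hc _ (hσ l)) o h0
        have e2 := vl_sop (hc' _ (hσ j)) (hc' _ (hσ l)) o (fun h2 => h0 (h1.2 h2))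
        rw [← e1.1, ← e2.1, update_vl, update_vl]
        refine ih q' _ _ (mem_update hσ i _) ?_ ?_ fun f hf => hS f
          (Finset.mem_insert_of_mem (Finset.mem_union_right _ hf))
        · intro s hs
          rcases Finset.mem_insert.1 hs with rfl | hs
          · exact e1.2
          · exact hc s hs
        · intro s hs
          rcases Finset.mem_insert.1 hs with rfl | hs
          · exact e2.2
          · exact hc' s hs
    | const a i q' =>
      rw [hq] at hS
      simp only at hS ⊢
      have e : ∀ d : Fin k → ℝ, d a = vl d (X a, 1) := fun d => by simp [vl]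
      rw [e c, e c', update_vl, update_vl]
      refine ih q' _ _ (mem_update hσ i _) ?_ ?_ hS
      · intro s hs
        rcases Finset.mem_insert.1 hs with rfl | hs
        · simp
        · exact hc s hs
      · intro s hs
        rcases Finset.mem_insert.1 hs with rfl | hs
        · simp
        · exact hc' s hs
    | copy i j q' =>
      rw [hq] at hS
      simp only at hS ⊢
      rw [update_vl, update_vl]
      refine ih q' _ _ (fun z => ?_) hc hc' hS
      by_cases hz : z = i
      · subst hz
        rw [Function.update_self]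
        exact hσ j
      · rw [Function.update_of_ne hz]
        exact hσ z
    | shift s q' =>
      rw [hq] at hS
      simp only at hS ⊢
      exact ih q' (fun z => σ (z + s)) V (fun z => hσ _) hc hc' hS
    | test i yes no =>
      rw [hq] at hS
      simp only at hS ⊢
      have h1 := sign_nonneg_iff' (hS _ (Finset.mem_insert_self _ _))
      refine if_congr ?_ ?_ ?_
      · rw [vl_nonneg (hc _ (hσ i)), vl_nonneg (hc' _ (hσ i))]
        exact h1
      · exact ih yes σ V hσ hc hc' fun f hf => hS f
          (Finset.mem_insert_of_mem (Finset.mem_union_left _ hf))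
      · exact ih no σ V hσ hc hc' fun f hf => hS f
          (Finset.mem_insert_of_mem (Finset.mem_union_right _ hf))
    | ask b yes no =>
      rw [hq] at hS
      simp only at hS ⊢
      have z0 : ∀ z, vl c (σ z) = 0 ↔ vl c' (σ z) = 0 := by
        intro z
        rw [vl_zero (hc _ (hσ z)), vl_zero (hc' _ (hσ z))]
        exact sign_zero_iff (hS _ (Finset.mem_union_left _ (Finset.mem_union_left _
          (Finset.mem_image_of_mem _ (hσ z)))))
      have z1 : ∀ z, vl c (σ z) = 1 ↔ vl c' (σ z) = 1 := by
        intro z
        rw [vl_one (hc _ (hσ z)), vl_one (hc' _ (hσ z))]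
        exact sign_zero_iff (hS _ (Finset.mem_union_left _ (Finset.mem_union_right _
          (Finset.mem_image_of_mem (fun s : Sy k => s.1 - s.2) (hσ z)))))
      have zb : ∀ z (a : Bool), vl c (σ z) = bit ℝ a ↔ vl c' (σ z) = bit ℝ a := by
        intro z a
        cases a
        · simpa [bit] using z0 z
        · simpa [bit] using z1 z
      refine if_congr ?_ ?_ ?_
      · refine exists_congr fun w => and_congr_left fun _ => ?_
        unfold Reads
        simp only [List.length_map, List.getElem_map, ne_eq, z0, zb]
      · exact ih yes σ V hσ hc hc' fun f hf => hS f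
          (Finset.mem_union_right _ (Finset.mem_union_left _ hf))
      · exact ih no σ V hσ hc hc' fun f hf => hS f
          (Finset.mem_union_right _ (Finset.mem_union_right _ hf))
    | halt b => rfl

end Pool.Agent.TH680.BSR
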