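import Pool.Agent.TH680.BSR.Qs
import Pool.Agent.TH680.BSS.Ver

/-! A nondeterministic machine over the reals with order tests. -/

set_option autoImplicit false

namespace Pool.Agent.TH680.BSR

open Pool.Agent.TH680.BSS

universe v

/-! ### Single steps -/

section

variable {C : Type v} {m : ℕ} {c : C → ℝ} {O : Bool → List Bool → Bool} {M : Fin m → Instr C m}
  {t : ℕ} {q : Fin m} {x : ℤ → ℝ}

theorem st_yes {i : ℤ} {y n : Fin m} (h : M q = .test i y n) (hx : 0 ≤ x i) :
    runR c O M (t + 1) q x = runR c O M t y x := by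
  simp only [runR, h]
  exact if_pos hx

theorem st_no {i : ℤ} {y n : Fin m} (h : M q = .test i y n) (hx : ¬ 0 ≤ x i) :
    runR c O M (t + 1) q x = runR c O M t n x := by
  simp only [runR, h]
  exact if_neg hx

theorem st_ask_yes {b : Bool} {y n : Fin m} (h : M q = .ask b y n)
    (hx : ∃ w : List Bool, Reads x (w.map (bit ℝ)) ∧ O b w = true) :
    runR c O M (t + 1) q x = runR c O M t y x := by
  simp only [runR, h]
  exact if_pos hx

theorem st_ask_no {b : Bool} {y n : Fin m} (h : M q = .ask b y n)
    (hx : ¬ ∃ w : List Bool, Reads x (w.map (bit ℝ)) ∧ O b w = true) :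
    runR c O M (t + 1) q x = runR c O M t n x := by
  simp only [runR, h]
  exact if_neg hx

theorem st_shift {s : ℤ} {n : Fin m} (h : M q = .shift s n) :
    runR c O M (t + 1) q x = runR c O M t n (fun z => x (z + s)) := by
  simp only [runR, h]

theorem st_const {a : C} {i : ℤ} {n : Fin m} (h : M q = .const a i n) :
    runR c O M (t + 1) q x = runR c O M t n (Function.update x i (c a)) := by
  simp only [runR, h]

theorem st_op {o : Op} {i j l : ℤ} {n : Fin m} (h : M q = .op o i j l n) :
    runR c O M (t + 1) q x = runR c O M t n (Function.update x i (o.ev (x j) (x l))) := by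
  simp only [runR, h]

theorem st_halt {b : Bool} (h : M q = .halt b) : runR c O M (t + 1) q x = some b := by
  simp only [runR, h]

end

theorem ag_update {x : ℤ → ℝ} {l : List ℝ} (h : Ag x l) {i : ℤ} (hi : i ≤ 0) (a : ℝ) :
    Ag (Function.update x i a) l := by
  intro z hz
  rw [Function.update_of_ne (by omega)]
  exact h z hz

theorem ag_cons {x : ℤ → ℝ} {l : List ℝ} (h : Ag x l) (a : ℝ) :
    Ag (fun z => Function.update (Function.update x (-1) 1) 0 a (z + -2)) (a :: l) := by
  intro z hz
  show Function.update (Function.update x (-1) 1) 0 a (z + -2) = _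
  by_cases h1 : z = 1
  · subst h1
    rw [place_one, Function.update_of_ne (by omega)]
    simp
  · by_cases h2 : z = 2
    · subst h2
      rw [place_two]
      simp
    · rw [Function.update_of_ne (by omega), Function.update_of_ne (by omega)]
      obtain ⟨y, rfl⟩ : ∃ y, z = y + 2 := ⟨z - 2, by ring⟩
      rw [place_shift a l (by omega)]
      have : y + 2 + -2 = y := by ring
      rw [this]
      exact h y (by omega)

/-- the program of the machine -/
noncomputable def vr : Fin 16 → Instr ℝ 16 := ![
  /- 0 -/ .const 0 (-4) 1,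
  /- 1 -/ .op .sub (-3) (-4) 1 2,
  /- 2 -/ .test (-3) 15 3,
  /- 3 -/ .ask true 4 15,
  /- 4 -/ .op .sub (-3) (-4) 2 5,
  /- 5 -/ .test (-3) 6 12,
  /- 6 -/ .shift 2 7,
  /- 7 -/ .const 1 (-1) 8,
  /- 8 -/ .const 1 0 9,
  /- 9 -/ .shift (-2) 10,
  /- 10 -/ .ask true 11 15,
  /- 11 -/ .shift 2 0,
  /- 12 -/ .shift 2 13,
  /- 13 -/ .ask true 14 15,
  /- 14 -/ .halt true,
  /- 15 -/ .halt false]

/-- the machine: ask whether the vector is in the oracle; delete the first letter; if it was `0`
then ask whether the vector with the first letter `1` instead is in the oracle, and repeat all this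
without the first letter; else ask once more -/
noncomputable def verR : Machine ℝ := ⟨15, vr⟩

/-- the condition which it decides -/
def Gd (A : List Bool → Bool) : List ℝ → Prop
  | [] => False
  | a :: l => boo A (a :: l) ∧ ((a = 0 → boo A (1 :: l) ∧ Gd A l) ∧ (a ≠ 0 → boo A l))

theorem boo_head {A : List Bool → Bool} {a : ℝ} {l : List ℝ} (h : boo A (a :: l)) :
    a = 0 ∨ a = 1 := by
  obtain ⟨w, h1, _⟩ := h
  rcases w with _ | ⟨b, w⟩
  · simp at h1
  · simp only [List.map_cons, List.cons.injEq] at h1
    rw [h1.1]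
    cases b
    · left; simp [bit]
    · right; simp [bit]

open Classical in
theorem vr_run (Q A : List Bool → Bool) (l : List ℝ) : ∀ (x : ℤ → ℝ), Ag x l →
    runR id (two Q A) vr (12 * l.length + 9) 0 x = some (decide (Gd A l)) := by
  induction l with
  | nil =>
    intro x h
    have e := h 1 le_rfl
    rw [place_nil] at e
    rw [show 12 * ([] : List ℝ).length + 9 = 5 + 1 + 1 + 1 + 1 from rfl,
      st_const (rfl : vr 0 = .const 0 (-4) 1), st_op (rfl : vr 1 = .op .sub (-3) (-4) 1 2),
      st_yes (rfl : vr 2 = .test (-3) 15 3), st_halt (rfl : vr 15 = .halt false),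
      decide_eq_false (p := Gd A ([] : List ℝ)) (fun h => h)]
    simp [Op.ev, e]
  | cons a l ih =>
    intro x h
    have e3 : 12 * (a :: l).length + 9 = 12 * l.length + 9 + 8 + 1 + 1 + 1 + 1 := by
      simp only [List.length_cons]
      ring
    rw [e3, st_const (rfl : vr 0 = .const 0 (-4) 1),
      st_op (rfl : vr 1 = .op .sub (-3) (-4) 1 2)]
    set x1 := Function.update x (-4) (id (0 : ℝ)) with hx1
    have ha1 : Ag x1 (a :: l) := ag_update h (by norm_num) _
    have hz1 : x1 (-4) = 0 := by rw [hx1]; simp
    have e1 := ha1 1 le_rfl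
    rw [place_one] at e1
    set x2 := Function.update x1 (-3) (Op.sub.ev (x1 (-4)) (x1 1)) with hx2
    have ha2 : Ag x2 (a :: l) := ag_update ha1 (by norm_num) _
    have hz2 : x2 (-4) = 0 := by rw [hx2, Function.update_of_ne (by norm_num)]; exact hz1
    rw [st_no (rfl : vr 2 = .test (-3) 15 3) (by
      rw [hx2, Function.update_self, hz1, e1]
      simp [Op.ev])]
    by_cases h1 : boo A (a :: l)
    · rw [st_ask_yes (rfl : vr 3 = .ask true 4 15) ((ha2.ask Q A).2 h1)]
      have e4 : 12 * l.length + 9 + 8 = 12 * l.length + 9 + 6 + 1 + 1 := rfl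
      rw [e4, st_op (rfl : vr 4 = .op .sub (-3) (-4) 2 5)]
      have e2 := ha2 2 (by omega)
      rw [place_two] at e2
      set x3 := Function.update x2 (-3) (Op.sub.ev (x2 (-4)) (x2 2)) with hx3
      have ha3 : Ag x3 (a :: l) := ag_update ha2 (by norm_num) _
      have hv3 : x3 (-3) = -a := by
        rw [hx3, Function.update_self, hz2, e2]
        simp [Op.ev]
      by_cases h2 : a = 0
      · rw [st_yes (rfl : vr 5 = .test (-3) 6 12) (by rw [hv3, h2]; simp)]
        have e5 : 12 * l.length + 9 + 6 = 12 * l.length + 9 + 1 + 1 + 1 + 1 + 1 + 1 := rfl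
        rw [e5, st_shift (rfl : vr 6 = .shift 2 7), st_const (rfl : vr 7 = .const 1 (-1) 8),
          st_const (rfl : vr 8 = .const 1 0 9), st_shift (rfl : vr 9 = .shift (-2) 10)]
        have ha4 := ha3.shift
        have ha5 := ag_cons ha4 1
        simp only [id]
        by_cases h3 : boo A ((1 : ℝ) :: l)
        · rw [st_ask_yes (rfl : vr 10 = .ask true 11 15) ((ha5.ask Q A).2 h3),
            st_shift (rfl : vr 11 = .shift 2 0), ih _ ha5.shift]
          congr 1
          rw [decide_eq_decide]
          constructor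
          · exact fun h4 => ⟨h1, fun _ => ⟨h3, h4⟩, fun h5 => absurd h2 h5⟩
          · exact fun h4 => (h4.2.1 h2).2
        · rw [st_ask_no (rfl : vr 10 = .ask true 11 15) fun h4 => h3 ((ha5.ask Q A).1 h4)]
          have e6 : 12 * l.length + 9 + 1 = (12 * l.length + 9) + 1 := rfl
          rw [e6, st_halt (rfl : vr 15 = .halt false)]
          have h4 : ¬ Gd A (a :: l) := fun h4 => h3 (h4.2.1 h2).1
          simp [h4]
      · have h5 : a = 1 := by
          rcases boo_head h1 with h | h
          · exact absurd h h2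
          · exact h
        rw [st_no (rfl : vr 5 = .test (-3) 6 12) (by
          rw [hv3, h5]
          norm_num)]
        have e5 : 12 * l.length + 9 + 6 = 12 * l.length + 9 + 3 + 1 + 1 + 1 := rfl
        rw [e5, st_shift (rfl : vr 12 = .shift 2 13)]
        by_cases h3 : boo A l
        · rw [st_ask_yes (rfl : vr 13 = .ask true 14 15) ((ha3.shift.ask Q A).2 h3),
            st_halt (rfl : vr 14 = .halt true)]
          have h4 : Gd A (a :: l) := ⟨h1, fun h4 => absurd h4 h2, fun _ => h3⟩
          simp [h4]
        · rw [st_ask_no (rfl : vr 13 = .ask true 14 15) fun h4 => h3 ((ha3.shift.ask Q A).1 h4),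
            st_halt (rfl : vr 15 = .halt false)]
          have h4 : ¬ Gd A (a :: l) := fun h4 => h3 (h4.2.2 h2)
          simp [h4]
    · rw [st_ask_no (rfl : vr 3 = .ask true 4 15) fun h4 => h1 ((ha2.ask Q A).1 h4)]
      have e4 : 12 * l.length + 9 + 8 = 12 * l.length + 9 + 7 + 1 := rfl
      rw [e4, st_halt (rfl : vr 15 = .halt false)]
      have h4 : ¬ Gd A (a :: l) := fun h4 => h1 h4.1
      simp [h4]

end Pool.Agent.TH680.BSR
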